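import Pool.Agent.T6.H28.Rot.Key
import Pool.Agent.T6.H28.MvFin
import Pool.Agent.R925.L.Gen3

/-! # Twists by rotations over geometrically rational function fields: sections -/

set_option autoImplicit false
set_option linter.all false

open FF

namespace Pool.Agent.T6.H28.Rot

open Pool.Agent.Y157.PS Pool.Agent.Y31.PS
  Pool.Agent.R925.Q Pool.Agent.R925.X Pool.Agent.T6.H28.Mv Pool.Agent.R925.L

/-- `keyR` for an arbitrary algebraic closure -/
theorem keyF {ℓ : ℕ} [Fact ℓ.Prime] {j : ℕ} (hj : 1 ≤ j) {k K : Type} [Field k] [CharZero k]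
    (hfg : (⊤ : IntermediateField ℚ k).FG) [Field K] [Algebra k K]
    (hK : (⊤ : IntermediateField k K).FG)
    {n : ℕ} (t : Fin n → AlgebraicClosure K) (ht : AlgebraicIndependent k t)
    (hLt : IntermediateField.adjoin (algebraicClosure k (AlgebraicClosure K))
        (Set.range (algebraMap K (AlgebraicClosure K))) =
      IntermediateField.adjoin (algebraicClosure k (AlgebraicClosure K)) (Set.range t))
    (D : MvPolynomial (Fin n) (algebraicClosure k (AlgebraicClosure K))) (hlink : Linked ℓ D)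
    (hmul : ∀ Q, Irreducible Q → ∀ e, Ex Q D e → ¬ ℓ ∣ e ∨ ℓ ^ j ∣ e)
    (D₁ : K) (hD₁ : MvPolynomial.aeval t D = algebraMap K (AlgebraicClosure K) D₁)
    (g : Polynomial k) (hsep : (Polynomial.expand k (ℓ ^ j) g).Separable)
    (a₀ d₀ : k) (ha₀ : a₀ ≠ 0) (hd₀ : d₀ ≠ 0) (α β : ℤ)
    (hα : ¬ ((ℓ ^ j : ℕ) : ℤ) ∣ α)
    (κ : Type) [Field κ] [Algebra K κ] [IsAlgClosure K κ] (ρ δ : κ)
    (hρ : ρ ^ (ℓ ^ j) = algebraMap K κ (algebraMap k K a₀ * D₁ ^ α))
    (hδ : δ ^ ℓ = algebraMap K κ (algebraMap k K d₀ * D₁ ^ β)) :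
    Key ℓ K κ (Polynomial.expand K (ℓ ^ j) (g.map (algebraMap k K))) ρ δ (fun _ => True) := by
  classical
  haveI : CharZero K := charZero_of_injective_algebraMap (algebraMap k K).injective
  let ψ : AlgebraicClosure K ≃ₐ[K] κ := IsAlgClosure.equiv K _ _
  letI : Algebra k κ := ((algebraMap K κ).comp (algebraMap k K)).toAlgebra
  haveI : IsScalarTower k K κ := IsScalarTower.of_algebraMap_eq fun _ => rfl
  letI : Algebra (algebraicClosure k (AlgebraicClosure K)) κ :=
    ((ψ : AlgebraicClosure K →+* κ).comp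
      (algebraMap (algebraicClosure k (AlgebraicClosure K)) (AlgebraicClosure K))).toAlgebra
  have hac : ∀ c : algebraicClosure k (AlgebraicClosure K),
      algebraMap (algebraicClosure k (AlgebraicClosure K)) κ c = ψ (c : AlgebraicClosure K) :=
    fun c => rfl
  haveI : IsScalarTower k (algebraicClosure k (AlgebraicClosure K)) κ := by
    refine IsScalarTower.of_algebraMap_eq fun c => ?_
    rw [hac]
    show algebraMap K κ (algebraMap k K c) = ψ (algebraMap k (AlgebraicClosure K) c)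
    rw [IsScalarTower.algebraMap_apply k K (AlgebraicClosure K), ψ.commutes]
  haveI : IsAlgClosure k (algebraicClosure k (AlgebraicClosure K)) := inferInstance
  let ψ' : AlgebraicClosure K →ₐ[algebraicClosure k (AlgebraicClosure K)] κ :=
    { (ψ : AlgebraicClosure K →+* κ) with commutes' := fun c => rfl }
  have hψ' : ∀ z, ψ' z = ψ z := fun z => rfl
  have ht₀ : AlgebraicIndependent (algebraicClosure k (AlgebraicClosure K)) t :=
    ht.algebraicClosure
  have ht' : AlgebraicIndependent (algebraicClosure k (AlgebraicClosure K)) (fun i => ψ (t i)) :=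
    ht₀.map' (f := ψ') ψ'.injective
  have hLt' : IntermediateField.adjoin (algebraicClosure k (AlgebraicClosure K))
      (Set.range (algebraMap K κ)) =
      IntermediateField.adjoin (algebraicClosure k (AlgebraicClosure K))
        (Set.range (fun i => ψ (t i))) := by
    have h1 := congrArg (IntermediateField.map ψ') hLt
    rw [IntermediateField.adjoin_map, IntermediateField.adjoin_map, ← Set.range_comp,
      ← Set.range_comp] at h1
    have h2 : (ψ' : AlgebraicClosure K → κ) ∘ (algebraMap K (AlgebraicClosure K)) =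
        algebraMap K κ := by
      funext a
      exact ψ.commutes a
    have h3 : (ψ' : AlgebraicClosure K → κ) ∘ t = fun i => ψ (t i) := rfl
    rw [h2, h3] at h1
    exact h1
  obtain ⟨C, hC⟩ := exists_genT (κ₀ := algebraicClosure k (AlgebraicClosure K)) (κ := κ) hK
    (fun i => ψ (t i)) (fun a => by
      rw [← hLt']
      exact IntermediateField.subset_adjoin _ _ ⟨a, rfl⟩)
  have h1 : MvPolynomial.aeval (fun i => ψ (t i)) D = algebraMap K κ D₁ := by
    have h2 : MvPolynomial.aeval (fun i => ψ (t i)) D = ψ' (MvPolynomial.aeval t D) := by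
      have h3 := MvPolynomial.comp_aeval_apply (φ := ψ') t D
      exact h3.symm
    rw [h2, hD₁, hψ', ψ.commutes]
  exact keyR (κ₀ := algebraicClosure k (AlgebraicClosure K)) hj hfg (fun i => ψ (t i)) ht' C hC hLt'
    D hlink hmul D₁ h1 g hsep a₀ d₀ ha₀ hd₀ α β hα hρ hδ

open Polynomial

/-- **sections of twists by rotations, several variables** -/
theorem sectR {k K F Ω : Type} [Field k] [CharZero k] [Field K] [Algebra k K]
    [Field F] [Field Ω] [Algebra K F] [Algebra F Ω] [Algebra K Ω] [IsScalarTower K F Ω]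
    [IsAlgClosed Ω] [Algebra.IsAlgebraic F Ω]
    {ℓ : ℕ} [Fact ℓ.Prime] {j : ℕ} (hj : 1 ≤ j)
    (hfg : (⊤ : IntermediateField ℚ k).FG) (hK : (⊤ : IntermediateField k K).FG)
    {n : ℕ} (t : Fin n → AlgebraicClosure K) (ht : AlgebraicIndependent k t)
    (hLt : IntermediateField.adjoin (algebraicClosure k (AlgebraicClosure K))
        (Set.range (algebraMap K (AlgebraicClosure K))) =
      IntermediateField.adjoin (algebraicClosure k (AlgebraicClosure K)) (Set.range t))
    (D : MvPolynomial (Fin n) (algebraicClosure k (AlgebraicClosure K))) (hlink : Linked ℓ D)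
    (hmul : ∀ Q, Irreducible Q → ∀ e, Ex Q D e → ¬ ℓ ∣ e ∨ ℓ ^ j ∣ e)
    (D₁ : K) (hD₁ : MvPolynomial.aeval t D = algebraMap K (AlgebraicClosure K) D₁)
    (g : k[X])
    (hsep : (expand k (ℓ ^ j) g).Separable) (h3 : 3 ≤ (expand k (ℓ ^ j) g).natDegree)
    (a₀ d₀ : k) (ha₀ : a₀ ≠ 0) (hd₀ : d₀ ≠ 0) (α β : ℤ)
    (hα : ¬ ((ℓ ^ j : ℕ) : ℤ) ∣ α) (a d : K) (ha : a = algebraMap k K a₀ * D₁ ^ α)
    (hd : d = algebraMap k K d₀ * D₁ ^ β)
    (x y : F) (hx : Transcendental K x)
    (hxy : algebraMap K F d * y ^ ℓ = aeval (algebraMap K F a * x ^ (ℓ ^ j)) (g.map (algebraMap k K)))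
    (hF : IntermediateField.adjoin K {x, y} = (⊤ : IntermediateField K F))
    (M : IntermediateField F Ω) (hM : geomPro ℓ K F Ω ≤ M)
    (S : (algebraicClosure K Ω ≃ₐ[K] algebraicClosure K Ω) →* (M ≃ₐ[F] M)) (hcont : Continuous S)
    (hcompat : ∀ σ (c : algebraicClosure K Ω) (z : M), (z : Ω) = (c : Ω) →
      (S σ z : Ω) = (σ c : Ω)) :
    ∃ W : ValuationSubring M,
      (((∀ c : K, algebraMap F M (algebraMap K F c) ∈ W) ∧
       (algebraMap F M x ∈ W.nonunits ∨ algebraMap F M x⁻¹ ∈ W.nonunits) ∧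
       (∀ z : F, algebraMap F M z ∈ W →
          ∃ c : K, algebraMap F M (z - algebraMap K F c) ∈ W.nonunits)) ∧
       ∀ σ, ∀ z : M, (z : Ω) ∈ geomPro ℓ K F Ω → (S σ z ∈ W ↔ z ∈ W)) ∧
      ∀ W' : ValuationSubring M,
        (∀ c : K, algebraMap F M (algebraMap K F c) ∈ W') →
        (algebraMap F M x ∈ W'.nonunits ∨ algebraMap F M x⁻¹ ∈ W'.nonunits ∨
          algebraMap F M (aeval (algebraMap K F a * x ^ (ℓ ^ j))
            (g.map (algebraMap k K))) ∈ W'.nonunits) →
        (∀ σ, ∀ z : M, (z : Ω) ∈ geomPro ℓ K F Ω → (S σ z ∈ W' ↔ z ∈ W')) →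
        ∀ z : M, (z : Ω) ∈ geomPro ℓ K F Ω → (z ∈ W' ↔ z ∈ W) := by
  have hcK : CharZero K := charZero_of_injective_algebraMap (algebraMap k K).injective
  have hp := (Fact.out : ℓ.Prime).pos
  have hm : 0 < ℓ ^ j := pow_pos hp j
  have hac : IsAlgClosure K (algebraicClosure K Ω) := inferInstance
  have hkb : IsAlgClosed (algebraicClosure K Ω) := hac.1
  obtain ⟨P, hP⟩ := hlink.1
  have hDne := comp_ne_zero hP
  have ht0 : D₁ ≠ 0 := by
    rintro rfl
    rw [map_zero] at hD₁
    exact hDne (ht.algebraicClosure.eq_zero_of_aeval_eq_zero D hD₁)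
  have hg0 : g ≠ 0 := by
    rintro rfl
    simp at h3
  have hlc0 : g.leadingCoeff ≠ 0 := leadingCoeff_ne_zero.2 hg0
  have hlck : (g.map (algebraMap k K)).leadingCoeff = algebraMap k K g.leadingCoeff :=
    leadingCoeff_map_of_injective (algebraMap k K).injective g
  have ha0 : a ≠ 0 := by
    rw [ha]
    exact mul_ne_zero ((_root_.map_ne_zero _).2 ha₀) (zpow_ne_zero _ ht0)
  have hd0 : d ≠ 0 := by
    rw [hd]
    exact mul_ne_zero ((_root_.map_ne_zero _).2 hd₀) (zpow_ne_zero _ ht0)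
  have hdl : d / (g.map (algebraMap k K)).leadingCoeff =
      algebraMap k K (d₀ / g.leadingCoeff) * D₁ ^ β := by
    rw [hlck, hd, map_div₀]
    ring
  have hexp : expand K (ℓ ^ j) (g.map (algebraMap k K)) =
      (expand k (ℓ ^ j) g).map (algebraMap k K) := (map_expand).symm
  obtain ⟨ρ, hρ0, hρ⟩ := root_exists hm (c := algebraMap K (algebraicClosure K Ω) a)
    ((_root_.map_ne_zero _).2 ha0)
  obtain ⟨δ, hδ0, hδ⟩ := root_exists hp (c := algebraMap K (algebraicClosure K Ω)
    (d / (g.map (algebraMap k K)).leadingCoeff))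
    ((_root_.map_ne_zero _).2 (div_ne_zero hd0 (by
      rw [hlck]; exact (_root_.map_ne_zero _).2 hlc0)))
  refine fullRM hm (g.map (algebraMap k K)) (dvd_pow_self ℓ (by omega))
    (by rw [hexp]; exact hsep.map) (by rw [hexp, natDegree_map]; exact h3) a d hd0 hρ0 hδ0 hρ hδ
    (keyF hj hfg hK t ht hLt D hlink hmul D₁ hD₁ g hsep a₀ (d₀ / g.leadingCoeff) ha₀
      (div_ne_zero hd₀ hlc0) α β hα _ ρ δ
      (by rw [hρ, ha]) (by rw [hδ, hdl])) x y hx hxy hF M hM S hcont hcompat

end Pool.Agent.T6.H28.Rot
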