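import Pool.Agent.T6.H28.Kum2

/-! # A character which is not trivial on a normal subgroup with cyclic quotient -/

set_option autoImplicit false
set_option linter.all false

namespace Pool.Agent.T6.H28.Kum

/-- a character which is nontrivial on `H` -/
theorem exists_char3 (ℓ r : ℕ) [Fact ℓ.Prime] (κ₀ : Type) [Field κ₀] [IsAlgClosed κ₀] [CharZero κ₀]
    {G P : Type} [Group G] [Group P] [Finite P] (hP : IsPGroup ℓ P) (θ : G →* P)
    (H : Subgroup G) (g₁ : G) (hg₁ : ∀ g : G, ∃ i : ℤ, g₁ ^ i * g ∈ H)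
    (hpow : ∀ g : G, g ^ (ℓ ^ r) ∈ H)
    (hθ : ∃ h ∈ H, θ h ≠ 1) :
    ∃ χ : G →* κ₀ˣ, (∀ g, θ g = 1 → χ g = 1) ∧ (∀ g, χ g ^ (ℓ ^ (r + 1)) = 1) ∧
      ∃ h ∈ H, χ h ≠ 1 := by
  classical
  have hQ : IsPGroup ℓ θ.range := hP.to_subgroup _
  set L : Subgroup θ.range := H.map θ.rangeRestrict with hLdef
  have hL0 : L ≠ ⊥ := by
    obtain ⟨h, hh, hne⟩ := hθ
    intro hbot
    apply hne
    have h1 : θ.rangeRestrict h ∈ L := ⟨h, hh, rfl⟩
    rw [hbot, Subgroup.mem_bot] at h1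
    exact congrArg Subtype.val h1
  have hsup : Subgroup.zpowers (θ.rangeRestrict g₁) ⊔ L = ⊤ := by
    rw [eq_top_iff]
    rintro ⟨_, g, rfl⟩ -
    obtain ⟨i, hi⟩ := hg₁ g
    have h1 : (⟨θ g, g, rfl⟩ : θ.range) =
        (θ.rangeRestrict g₁) ^ (-i) * θ.rangeRestrict (g₁ ^ i * g) := by
      rw [map_mul, map_zpow, ← mul_assoc, ← zpow_add, neg_add_cancel, zpow_zero, one_mul]
      rfl
    rw [h1]
    exact mul_mem ((le_sup_left : Subgroup.zpowers (θ.rangeRestrict g₁) ≤ _)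
      (Subgroup.zpow_mem_zpowers _ _)) ((le_sup_right : L ≤ _) ⟨_, hi, rfl⟩)
  have hnle : ¬ L ≤ commutator θ.range := fun h => hL0 (not_le_comm hQ L _ hsup h)
  obtain ⟨q, hqL, hq⟩ := Set.not_subset.1 hnle
  obtain ⟨h0, hh0, rfl⟩ := hqL
  have hq1 : Abelianization.of (θ.rangeRestrict h0) ≠ 1 := by
    intro h
    apply hq
    exact (QuotientGroup.eq_one_iff (θ.rangeRestrict h0)).1 h
  have hexp : Monoid.exponent (Abelianization θ.range) ≠ 0 := Monoid.exponent_ne_zero_of_finite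
  have : NeZero ((Monoid.exponent (Abelianization θ.range) : ℕ) : κ₀) :=
    ⟨by exact_mod_cast hexp⟩
  obtain ⟨φ, hφ⟩ := CommGroup.exists_apply_ne_one_of_hasEnoughRootsOfUnity
    (Abelianization θ.range) κ₀ hq1
  set χ₁ : G →* κ₀ˣ := φ.comp (Abelianization.of.comp θ.rangeRestrict) with hχ₁
  have h1 : ∀ g, θ g = 1 → χ₁ g = 1 := by
    intro g hg
    have : θ.rangeRestrict g = 1 := Subtype.ext hg
    simp [hχ₁, this]
  have h2 : χ₁ h0 ≠ 1 := hφ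
  obtain ⟨n, hn⟩ := IsPGroup.iff_card.1 hQ
  have h3 : ∃ n, ∀ h ∈ H, χ₁ h ^ (ℓ ^ n) = 1 := by
    refine ⟨n, fun g _ => ?_⟩
    have : θ.rangeRestrict g ^ (ℓ ^ n) = 1 := by rw [← hn]; exact pow_card_eq_one'
    rw [hχ₁, MonoidHom.comp_apply, MonoidHom.comp_apply, ← map_pow, ← map_pow, this, map_one,
      map_one]
  obtain ⟨e, he⟩ : ∃ e, e = Nat.find h3 := ⟨_, rfl⟩
  have hes : ∀ g ∈ H, χ₁ g ^ (ℓ ^ e) = 1 := by rw [he]; exact Nat.find_spec h3
  have he0 : e ≠ 0 := by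
    intro h0'
    have := hes h0 hh0
    rw [h0', pow_zero, pow_one] at this
    exact h2 this
  obtain ⟨e', rfl⟩ := Nat.exists_eq_succ_of_ne_zero he0
  have hmin : ¬ ∀ h ∈ H, χ₁ h ^ (ℓ ^ e') = 1 :=
    Nat.find_min h3 (by rw [← he]; exact Nat.lt_succ_self _)
  push Not at hmin
  obtain ⟨g2, hg2H, hg2⟩ := hmin
  refine ⟨χ₁ ^ (ℓ ^ e'), fun g hg => ?_, fun g => ?_, g2, hg2H, ?_⟩
  · rw [MonoidHom.pow_apply, h1 g hg, one_pow]
  · rw [MonoidHom.pow_apply, ← pow_mul, ← pow_add]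
    have h4 := hes _ (hpow g)
    rw [map_pow, ← pow_mul] at h4
    have h5 : ℓ ^ r * ℓ ^ e'.succ = ℓ ^ (e' + (r + 1)) := by
      rw [Nat.succ_eq_add_one]
      ring
    rw [h5] at h4
    exact h4
  · rw [MonoidHom.pow_apply]; exact hg2

/-- the quotient by the core of the kernel of a homomorphism from a subgroup to a finite `ℓ`-group -/
theorem core_quot {ℓ r : ℕ} [Fact ℓ.Prime] {G P : Type} [Group G] [Group P] [Finite P]
    (hP : IsPGroup ℓ P) (H : Subgroup G) [H.Normal] (hfin : H.FiniteIndex)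
    (hpow : ∀ g : G, g ^ (ℓ ^ r) ∈ H) (φ : H →* P) :
    ∃ V : Subgroup G, V = φ.ker.map H.subtype ∧ V.normalCore.FiniteIndex ∧
      IsPGroup ℓ (G ⧸ V.normalCore) := by
  refine ⟨_, rfl, ?_, ?_⟩
  · haveI h1 : φ.ker.FiniteIndex := by infer_instance
    haveI : (φ.ker.map H.subtype).FiniteIndex := by
      constructor
      rw [Subgroup.index_map_subtype]
      exact mul_ne_zero h1.index_ne_zero hfin.index_ne_zero
    infer_instance
  · obtain ⟨n, hn⟩ := IsPGroup.iff_card.1 hP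
    have key : ∀ h ∈ H, h ^ (ℓ ^ n) ∈ φ.ker.map H.subtype := by
      intro h hh
      refine ⟨(⟨h, hh⟩ : H) ^ (ℓ ^ n), ?_, rfl⟩
      rw [SetLike.mem_coe, MonoidHom.mem_ker, map_pow, ← hn]
      exact pow_card_eq_one'
    intro q
    obtain ⟨g, rfl⟩ := QuotientGroup.mk_surjective q
    refine ⟨r + n, ?_⟩
    rw [← QuotientGroup.mk_pow, QuotientGroup.eq_one_iff]
    intro x
    have h1 : x * g ^ (ℓ ^ (r + n)) * x⁻¹ = (x * g ^ (ℓ ^ r) * x⁻¹) ^ (ℓ ^ n) := by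
      rw [conj_pow, ← pow_mul, ← pow_add]
    rw [h1]
    exact key _ (Subgroup.Normal.conj_mem ‹_› _ (hpow g) x)

end Pool.Agent.T6.H28.Kum
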