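import Pool.Agent.T6.H28.Rot.Sep

/-! # Linked components, for roots of order `ℓ ^ q` -/

set_option autoImplicit false
set_option linter.all false

open FF

namespace Pool.Agent.T6.H28.Rot

open MvPolynomial Pool.Agent.Y157.PS Pool.Agent.Y157.GT Pool.Agent.Y474.GT Pool.Agent.T6.H28.PE
  Pool.Agent.T6.H28.Mv

section test

variable {ℓ : ℕ} [Fact ℓ.Prime]
    {k K κ₀ κ : Type} [Field k] [CharZero k] [Field K] [CharZero K] [Field κ₀]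
    [Algebra k κ₀] [IsAlgClosure k κ₀] [Field κ] [Algebra κ₀ κ] [Algebra k κ]
    [IsScalarTower k κ₀ κ] [Algebra K κ] [IsAlgClosure K κ]

theorem sepR (hfg : (⊤ : IntermediateField ℚ k).FG) (q : ℕ) (P₁ : (κ ≃ₐ[K] κ) → Prop)
    {T₀ B₀ : Finset κ₀} {δ : κ} (hδ0 : δ ≠ 0)
    {n : ℕ} (t : Fin n → κ) (ht : AlgebraicIndependent κ₀ t)
    (hal : Algebra.IsAlgebraic (IntermediateField.adjoin κ₀ (Set.range t)) κ)
    (C : Finset κ₀) (hgen : GenT k K κ₀ κ t C)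
    (hLt : IntermediateField.adjoin κ₀ (Set.range (algebraMap K κ)) =
      IntermediateField.adjoin κ₀ (Set.range t))
    (D : MvPolynomial (Fin n) κ₀) (hD : δ ^ (ℓ ^ q) = aeval t D) (hlink : Linked ℓ D)
    (hmul : ∀ Q, Irreducible Q → ∀ e, Ex Q D e → ¬ ℓ ∣ e ∨ ℓ ^ q ∣ e)
    (w : κ) (hw0 : w ≠ 0)
    (hwL : w ^ (ℓ ^ (q + 1)) ∈ IntermediateField.adjoin κ₀ (Set.range (algebraMap K κ)))
    (horc : ∀ w : κ, w ≠ 0 →
      (∀ g : κ ≃ₐ[K] κ, (∀ c, g (algebraMap κ₀ κ c) = algebraMap κ₀ κ c) → P₁ g → g w = w) →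
      Orc ℓ (ℓ ^ (q + 1)) k K T₀ B₀ δ w)
    (hno : ∀ g : κ ≃ₐ[K] κ, (∀ c, g (algebraMap κ₀ κ c) = algebraMap κ₀ κ c) →
      P₁ g → g w = w) :
    ∃ r : ℕ, w * δ ^ r ∈ IntermediateField.adjoin κ₀ (Set.range (algebraMap K κ)) := by
  classical
  haveI : IsAlgClosed κ₀ := IsAlgClosure.isAlgClosed k
  haveI : CharZero κ₀ := charZero_of_injective_algebraMap (algebraMap k κ₀).injective
  have hℓ : 0 < ℓ := (Fact.out : ℓ.Prime).pos
  have hN : 0 < ℓ ^ (q + 1) := pow_pos hℓ (q + 1)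
  obtain ⟨⟨P₀, hP₀⟩, hcon⟩ := hlink
  have hD0 : D ≠ 0 := comp_ne_zero hP₀
  -- the polynomial `G`
  have hpolyL : ∀ A : MvPolynomial (Fin n) κ₀, aeval t A ∈
      IntermediateField.adjoin κ₀ (Set.range t) := by
    intro A
    rw [IntermediateField.mem_adjoin_range_iff]
    exact ⟨A, 1, by simp⟩
  rw [hLt] at hwL ⊢
  rw [IntermediateField.mem_adjoin_range_iff] at hwL
  obtain ⟨A, A', hAA⟩ := hwL
  have hA'0 : aeval t A' ≠ 0 := by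
    intro h0
    rw [h0, div_zero] at hAA
    exact pow_ne_zero _ hw0 hAA
  have hA0 : aeval t A ≠ 0 := by
    intro h0
    rw [h0, zero_div] at hAA
    exact pow_ne_zero _ hw0 hAA
  obtain ⟨G, hG⟩ : ∃ G, G = A * A' ^ (ℓ ^ (q + 1) - 1) := ⟨_, rfl⟩
  obtain ⟨w', hw'⟩ : ∃ w' : κ, w' = w * aeval t A' := ⟨_, rfl⟩
  have hG0 : G ≠ 0 := by
    rw [hG]
    refine mul_ne_zero ?_ (pow_ne_zero _ ?_)
    · rintro rfl; exact hA0 (map_zero _)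
    · rintro rfl; exact hA'0 (map_zero _)
  have hw'N : w' ^ (ℓ ^ (q + 1)) = aeval t G := by
    rw [hw', mul_pow, hAA, hG, map_mul, map_pow]
    have hpow : (aeval t A' : κ) ^ (ℓ ^ (q + 1)) = aeval t A' * (aeval t A') ^ (ℓ ^ (q + 1) - 1) := by
      rw [← pow_succ']; congr 1; omega
    rw [hpow]
    field_simp
  have hfixL : ∀ g : κ ≃ₐ[K] κ, (∀ c, g (algebraMap κ₀ κ c) = algebraMap κ₀ κ c) →
      ∀ z ∈ IntermediateField.adjoin κ₀ (Set.range t), g z = z := by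
    intro g hg z hz
    rw [← hLt] at hz
    exact fix_comp ((g : κ ≃+* κ) : κ →+* κ) hg (fun a => g.commutes a) hz
  have hno' : ∀ g : κ ≃ₐ[K] κ, (∀ c, g (algebraMap κ₀ κ c) = algebraMap κ₀ κ c) →
      P₁ g → g w' = w' := by
    intro g hg1 hg2
    rw [hw', map_mul, hno g hg1 hg2, hfixL g hg1 _ (hpolyL A')]
  have hw'0 : w' ≠ 0 := by rw [hw']; exact mul_ne_zero hw0 hA'0
  have hμ : 0 < ℓ ^ q := pow_pos hℓ q
  haveI : NeZero (ℓ ^ q) := ⟨hμ.ne'⟩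
  have gp := genpos hfg hμ t ht hal C hgen D hD0 hD hN w' G hG0 hw'N (horc w' hw'0 hno')
  have cr := crossing hfg hμ t ht hal C hgen D hD0 hD hN w' G hG0 hw'N (horc w' hw'0 hno')
  have hcast : ∀ a : ℕ, ℓ ^ q ∣ a ↔ (a : ZMod (ℓ ^ q)) = 0 := fun a =>
    (ZMod.natCast_eq_zero_iff a (ℓ ^ q)).symm
  have hunit : ∀ a : ℕ, ¬ ℓ ∣ a → IsUnit (a : ZMod (ℓ ^ q)) := fun a ha =>
    (ZMod.isUnit_iff_coprime a (ℓ ^ q)).2 (Nat.Coprime.pow_right q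
      ((Nat.Prime.coprime_iff_not_dvd (Fact.out : ℓ.Prime)).2 ha).symm)
  -- the multiplicities in `G` of the components
  have gpc : ∀ P, Comp ℓ D P → ∀ m g, Ex P D m → Ex P G g → ¬ ℓ ∣ m ∧ ∃ γ, g = ℓ * γ := by
    rintro P ⟨hP, m', hm', hex⟩ m g hm hg
    rw [hex.unique hm] at hm'
    refine ⟨hm', ?_⟩
    have h1 := gp P hP m g hm hg (ℓ ^ q) hμ (dvd_mul_right _ _)
    rw [pow_succ] at h1
    obtain ⟨γ, hγ⟩ := Nat.dvd_of_mul_dvd_mul_left hμ h1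
    exact ⟨γ, hγ⟩
  obtain ⟨hP₀i, m₀, hm₀, hex₀⟩ := hP₀
  obtain ⟨g₀, hg₀⟩ := exists_ex hP₀i hG0
  obtain ⟨-, γ₀, hγ₀⟩ := gpc P₀ ⟨hP₀i, m₀, hm₀, hex₀⟩ m₀ g₀ hex₀ hg₀
  obtain ⟨r, hr⟩ : ∃ r : ℕ, (γ₀ : ZMod (ℓ ^ q)) + r * m₀ = 0 := by
    obtain ⟨u, hu⟩ := hunit m₀ hm₀
    refine ⟨(-(γ₀ : ZMod (ℓ ^ q)) * ((u⁻¹ : (ZMod (ℓ ^ q))ˣ) : ZMod (ℓ ^ q))).val, ?_⟩
    rw [ZMod.natCast_val, ZMod.cast_id, ← hu, mul_assoc, Units.inv_mul, mul_one, add_neg_cancel]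
  -- the relation
  let Rel : MvPolynomial (Fin n) κ₀ → Prop := fun P => ∀ m γ, Ex P D m → Ex P G (ℓ * γ) →
    (γ : ZMod (ℓ ^ q)) + r * m = 0
  have hRel₀ : Rel P₀ := by
    intro m γ hm hγ
    rw [hm.unique hex₀]
    have h1 := hγ.unique hg₀
    rw [hγ₀] at h1
    rw [Nat.eq_of_mul_eq_mul_left hℓ h1]
    exact hr
  have hass : ∀ Q Q', Associated Q Q' → Rel Q → Rel Q' := by
    intro Q Q' hQQ hRel m γ hm hγ
    exact hRel m γ (hm.assoc hQQ.symm) (hγ.assoc hQQ.symm)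
  have hcross : ∀ Q Q', Comp ℓ D Q → Comp ℓ D Q' → Cross ℓ D Q Q' → ¬ Associated Q Q' →
      ∀ m γ m' γ', Ex Q D m → Ex Q G (ℓ * γ) → Ex Q' D m' → Ex Q' G (ℓ * γ') →
      (m' : ZMod (ℓ ^ q)) * γ = m * γ' := by
    rintro Q Q' hQ hQ' ⟨z, hz, hz', ⟨i, i', hΔ⟩, hoth⟩ hne m γ m' γ' e1 e2 e3 e4
    obtain ⟨a, ha⟩ : ∃ a : ℕ, a = ℓ ^ q + ((m' : ZMod (ℓ ^ q))).val := ⟨_, rfl⟩
    obtain ⟨a', ha'⟩ : ∃ a' : ℕ, a' = ℓ ^ q + ((-(m : ZMod (ℓ ^ q)))).val := ⟨_, rfl⟩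
    have hac : (a : ZMod (ℓ ^ q)) = m' := by
      rw [ha, Nat.cast_add, ZMod.natCast_self, zero_add, ZMod.natCast_val, ZMod.cast_id]
    have hac' : (a' : ZMod (ℓ ^ q)) = -m := by
      rw [ha', Nat.cast_add, ZMod.natCast_self, zero_add, ZMod.natCast_val, ZMod.cast_id]
    have hlt := ZMod.val_lt (m' : ZMod (ℓ ^ q))
    have hlt' := ZMod.val_lt (-(m : ZMod (ℓ ^ q)))
    have h1 := cr Q Q' hQ.1 hQ'.1 hne z hz hz' i i' hΔ (by
      intro P hP hPz hPQ hPQ' e he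
      rcases hmul P hP e he with hnd | hnd
      · exfalso
        rcases hoth P ⟨hP, e, hnd, he⟩ hPz with h2 | h2
        · exact hPQ h2
        · exact hPQ' h2
      · exact hnd) m m' (ℓ * γ) (ℓ * γ') e1 e3 e2 e4 a a' (by omega) (by omega) (by omega)
      (by omega) (by
        rw [hcast]
        push_cast
        rw [hac, hac']
        ring)
    have h2 : a * (ℓ * γ) + a' * (ℓ * γ') = ℓ * (a * γ + a' * γ') := by ring
    rw [h2, pow_succ, mul_comm (ℓ ^ q) ℓ] at h1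
    have h3 := Nat.dvd_of_mul_dvd_mul_left hℓ h1
    rw [hcast] at h3
    push_cast at h3
    rw [hac, hac'] at h3
    linear_combination h3
  have hstep : ∀ Q Q', Comp ℓ D Q → Comp ℓ D Q' → (Associated Q Q' ∨ Cross ℓ D Q Q') →
      (Rel Q ↔ Rel Q') := by
    intro Q Q' hQ hQ' hor
    by_cases hQQ : Associated Q Q'
    · exact ⟨hass Q Q' hQQ, hass Q' Q hQQ.symm⟩
    · have hcr := hor.resolve_left hQQ
      obtain ⟨hQi, mQ, hmQ, hexQ⟩ := hQ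
      obtain ⟨hQi', mQ', hmQ', hexQ'⟩ := hQ'
      obtain ⟨gQ, hgQ⟩ := exists_ex hQi hG0
      obtain ⟨gQ', hgQ'⟩ := exists_ex hQi' hG0
      obtain ⟨-, γQ, rfl⟩ := gpc Q ⟨hQi, mQ, hmQ, hexQ⟩ mQ gQ hexQ hgQ
      obtain ⟨-, γQ', rfl⟩ := gpc Q' ⟨hQi', mQ', hmQ', hexQ'⟩ mQ' gQ' hexQ' hgQ'
      have h1 := hcross Q Q' ⟨hQi, mQ, hmQ, hexQ⟩ ⟨hQi', mQ', hmQ', hexQ'⟩ hcr hQQ mQ γQ mQ' γQ'
        hexQ hgQ hexQ' hgQ'
      have hmc := hunit mQ hmQ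
      have hmc' := hunit mQ' hmQ'
      constructor
      · intro hRel m γ hm hγ
        have h2 := hRel mQ γQ hexQ hgQ
        rw [hm.unique hexQ', Nat.eq_of_mul_eq_mul_left hℓ (hγ.unique hgQ')]
        have h3 : (mQ : ZMod (ℓ ^ q)) * ((γQ' : ZMod (ℓ ^ q)) + r * mQ') = 0 := by
          linear_combination (mQ' : ZMod (ℓ ^ q)) * h2 - h1
        exact (hmc.mul_right_eq_zero).1 h3
      · intro hRel m γ hm hγ
        have h2 := hRel mQ' γQ' hexQ' hgQ'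
        rw [hm.unique hexQ, Nat.eq_of_mul_eq_mul_left hℓ (hγ.unique hgQ)]
        have h3 : (mQ' : ZMod (ℓ ^ q)) * ((γQ : ZMod (ℓ ^ q)) + r * mQ) = 0 := by
          linear_combination (mQ : ZMod (ℓ ^ q)) * h2 + h1
        exact (hmc'.mul_right_eq_zero).1 h3
  have hgenr : ∀ Q Q', Relation.EqvGen (fun Q Q' => Comp ℓ D Q ∧ Comp ℓ D Q' ∧
      (Associated Q Q' ∨ Cross ℓ D Q Q')) Q Q' → (Rel Q ↔ Rel Q') := by
    intro Q Q' hQQ
    induction hQQ with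
    | rel a b hab => exact hstep a b hab.1 hab.2.1 hab.2.2
    | refl a => exact Iff.rfl
    | symm a b _ ih => exact ih.symm
    | trans a b c _ _ ih1 ih2 => exact ih1.trans ih2
  have hall : ∀ P, Comp ℓ D P → Rel P := fun P hP =>
    (hgenr P₀ P (hcon P₀ P ⟨hP₀i, m₀, hm₀, hex₀⟩ hP)).1 hRel₀
  -- `G D ^ (ℓ r)` is a power
  obtain ⟨A₂, H, hH, hA₂⟩ := split (fun _ => True) (ℓ ^ (q + 1)) (G * D ^ (ℓ * r))
    (mul_ne_zero hG0 (pow_ne_zero _ hD0)) (by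
    intro Q hQ _ e he
    obtain ⟨m, hm⟩ := exists_ex hQ hD0
    obtain ⟨g, hg⟩ := exists_ex hQ hG0
    have h1 := (hg.mul hQ (hm.pow hQ (ℓ * r))).unique he
    rw [← h1]
    rcases (hmul Q hQ m hm).symm with hℓm | hℓm
    · have h2 := gp Q hQ m g hm hg 1 one_pos (by rwa [one_mul])
      rw [one_mul] at h2
      refine dvd_add h2 ?_
      obtain ⟨m', rfl⟩ := hℓm
      exact ⟨r * m', by ring⟩
    · have hc : Comp ℓ D Q := ⟨hQ, m, hℓm, hm⟩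
      obtain ⟨-, γ, rfl⟩ := gpc Q hc m g hm hg
      have h2 := hall Q hc m γ hm hg
      have h3 : ((γ + r * m : ℕ) : ZMod (ℓ ^ q)) = 0 := by
        push_cast
        exact h2
      rw [← hcast] at h3
      obtain ⟨c, hc'⟩ := h3
      refine ⟨c, ?_⟩
      have h4 : ℓ * γ + ℓ * r * m = ℓ * (γ + r * m) := by ring
      rw [h4, hc']
      ring)
  have hA₂0 : A₂ ≠ 0 := by
    rintro rfl
    rw [zero_mul] at hH
    exact mul_ne_zero hG0 (pow_ne_zero _ hD0) hH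
  obtain ⟨c, hc0, rfl⟩ := exists_C hA₂0 (fun Q hQ => hA₂ Q hQ trivial)
  obtain ⟨c', hc'⟩ := IsAlgClosed.exists_pow_nat_eq c hN
  have hfin : (w' * δ ^ r) ^ (ℓ ^ (q + 1)) = (aeval t (MvPolynomial.C c' * H)) ^ (ℓ ^ (q + 1)) := by
    have h5 : (δ ^ r) ^ (ℓ ^ (q + 1)) = (aeval t D) ^ (ℓ * r) := by
      rw [← hD, ← pow_mul, ← pow_mul]
      congr 1
      ring
    rw [mul_pow, hw'N, h5, ← map_pow, ← map_mul, hH, ← map_pow, mul_pow, ← MvPolynomial.C_pow, hc']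
  have hne : aeval t (MvPolynomial.C c' * H) ≠ 0 := by
    intro h0
    rw [h0, zero_pow hN.ne'] at hfin
    have h1 : w' ≠ 0 := by
      rw [hw']
      exact mul_ne_zero hw0 hA'0
    exact pow_ne_zero _ (mul_ne_zero h1 (pow_ne_zero r hδ0)) hfin
  obtain ⟨ξ, hξ⟩ := Pool.Agent.Y430.GT.mem_const (κ₀ := κ₀) hN
    (w := w' * δ ^ r / aeval t (MvPolynomial.C c' * H)) (by
      rw [div_pow, hfin, div_self (pow_ne_zero _ hne)])
  refine ⟨r, ?_⟩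
  have h6 : w * δ ^ r = algebraMap κ₀ κ ξ * aeval t (MvPolynomial.C c' * H) / aeval t A' := by
    rw [hξ, div_mul_cancel₀ _ hne, hw', mul_right_comm, mul_div_assoc, div_self hA'0, mul_one]
  rw [h6]
  exact div_mem (mul_mem (IntermediateField.algebraMap_mem _ _) (hpolyL _)) (hpolyL _)

end test

end Pool.Agent.T6.H28.Rot
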