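import Pool.Agent.T6.H28.Rot.Pt
import Pool.Agent.T6.H28.Rot.Sep2
import Pool.Agent.R925.L.Gen2

/-! # Twists by rotations over geometrically rational function fields: the abstract theorem -/

set_option autoImplicit false
set_option linter.all false

open FF

namespace Pool.Agent.T6.H28.Rot

open Pool.Agent.Y157.PS Pool.Agent.Y157.GT Pool.Agent.Y474.GT Pool.Agent.Y31.PS
  Pool.Agent.R925.Q Pool.Agent.R925.X Pool.Agent.T6.H28.PE
  Pool.Agent.T6.H28.Mv Pool.Agent.R925.L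

/-- the exponents -/
theorem zpow_root {κ : Type} [Field κ] {ζ : κ} {ℓ q : ℕ} [Fact ℓ.Prime] {α : ℤ}
    (hα : ¬ (ℓ : ℤ) ∣ α) (h1 : ζ ^ (ℓ ^ q) = 1) (h2 : ζ ^ α = 1) : ζ = 1 := by
  have hp := (Fact.out : ℓ.Prime)
  have hζ0 : ζ ≠ 0 := by
    rintro rfl
    rw [zero_pow (pow_ne_zero _ hp.ne_zero)] at h1
    exact zero_ne_one h1
  obtain ⟨u, v, huv⟩ : ∃ u v : ℤ, u * α + v * ((ℓ : ℤ) ^ q) = 1 := by
    have h3 : IsCoprime (ℓ : ℤ) α :=
      (Prime.coprime_iff_not_dvd (Nat.prime_iff_prime_int.1 hp)).2 hα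
    obtain ⟨u, v, h⟩ := (h3.pow_left (m := q))
    exact ⟨v, u, by linarith⟩
  have h4 : ζ ^ ((ℓ : ℤ) ^ q) = 1 := by
    have h5 : ((ℓ : ℤ) ^ q) = ((ℓ ^ q : ℕ) : ℤ) := by push_cast; rfl
    rw [h5, zpow_natCast, h1]
  calc ζ = ζ ^ (u * α + v * ((ℓ : ℤ) ^ q)) := by rw [huv, zpow_one]
    _ = 1 := by
      rw [zpow_add₀ hζ0, mul_comm u α, zpow_mul, h2, one_zpow, one_mul, mul_comm v, zpow_mul, h4,
        one_zpow]

/-- **the theorem for all covers** -/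
theorem keyR {ℓ : ℕ} [Fact ℓ.Prime] {j : ℕ} (hj : 1 ≤ j) {k K κ₀ κ : Type} [Field k] [CharZero k]
    (hfg : (⊤ : IntermediateField ℚ k).FG) [Field K] [Algebra k K]
    [CharZero K] [Field κ₀] [Algebra k κ₀] [IsAlgClosure k κ₀]
    [Field κ] [Algebra κ₀ κ] [Algebra k κ] [IsScalarTower k κ₀ κ] [Algebra K κ] [IsAlgClosure K κ]
    [IsScalarTower k K κ]
    {n : ℕ} (t : Fin n → κ) (ht : AlgebraicIndependent κ₀ t)
    (C : Finset κ₀) (hgen : GenT k K κ₀ κ t C)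
    (hLt : IntermediateField.adjoin κ₀ (Set.range (algebraMap K κ)) =
      IntermediateField.adjoin κ₀ (Set.range t))
    (D : MvPolynomial (Fin n) κ₀) (hlink : Linked ℓ D)
    (hmul : ∀ Q, Irreducible Q → ∀ e, Ex Q D e → ¬ ℓ ∣ e ∨ ℓ ^ j ∣ e)
    (D₁ : K) (hD₁ : MvPolynomial.aeval t D = algebraMap K κ D₁)
    (g : Polynomial k) (hsep : (Polynomial.expand k (ℓ ^ j) g).Separable)
    (a₀ d₀ : k) (ha₀ : a₀ ≠ 0) (hd₀ : d₀ ≠ 0) (α β : ℤ)
    (hα : ¬ ((ℓ ^ j : ℕ) : ℤ) ∣ α) {ρ δ : κ}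
    (hρ : ρ ^ (ℓ ^ j) = algebraMap K κ (algebraMap k K a₀ * D₁ ^ α))
    (hδ : δ ^ ℓ = algebraMap K κ (algebraMap k K d₀ * D₁ ^ β)) :
    Key ℓ K κ (Polynomial.expand K (ℓ ^ j) (g.map (algebraMap k K))) ρ δ (fun _ => True) := by
  classical
  intro R M _ _ _ _ _ _ x B Y hmemB hC s hs
  have hp := (Fact.out : ℓ.Prime).pos
  have hm : 0 < ℓ ^ j := pow_pos hp j
  have hm2 : 2 ≤ ℓ ^ j := by
    calc 2 ≤ ℓ := (Fact.out : ℓ.Prime).two_le
      _ = ℓ ^ 1 := (pow_one ℓ).symm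
      _ ≤ ℓ ^ j := Nat.pow_le_pow_right hp hj
  haveI hac : IsAlgClosed κ := IsAlgClosure.isAlgClosed K
  haveI : CharZero κ := charZero_of_injective_algebraMap (algebraMap K κ).injective
  haveI : IsAlgClosed κ₀ := IsAlgClosure.isAlgClosed k
  haveI : CharZero κ₀ := charZero_of_injective_algebraMap (algebraMap k κ₀).injective
  haveI : Algebra.IsAlgebraic K κ := (inferInstance : IsAlgClosure K κ).isAlgebraic
  haveI : Algebra.IsAlgebraic k κ₀ := (inferInstance : IsAlgClosure k κ₀).isAlgebraic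
  have hkK : ∀ c : k, ∃ b : K, algebraMap K κ b = algebraMap k κ c := fun c =>
    ⟨algebraMap k K c, (IsScalarTower.algebraMap_apply k K κ c).symm⟩
  obtain ⟨P, hP⟩ := hlink.1
  have hD0 := comp_ne_zero hP
  -- constants
  set t' : κ := algebraMap K κ D₁ with ht'
  set a' : κ := algebraMap k κ a₀ with ha'
  set d' : κ := algebraMap k κ d₀ with hd'
  have ht'0 : t' ≠ 0 := by
    rw [← hD₁]
    exact fun h0 => hD0 (ht.eq_zero_of_aeval_eq_zero D h0)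
  have ha'0 : a' ≠ 0 := (_root_.map_ne_zero _).2 ha₀
  have hd'0 : d' ≠ 0 := (_root_.map_ne_zero _).2 hd₀
  have hρ' : ρ ^ (ℓ ^ j) = a' * t' ^ α := by
    rw [hρ, map_mul, map_zpow₀, ← IsScalarTower.algebraMap_apply]
  have hδ' : δ ^ ℓ = d' * t' ^ β := by
    rw [hδ, map_mul, map_zpow₀, ← IsScalarTower.algebraMap_apply]
  have hρ0 : ρ ≠ 0 := by
    rintro rfl
    rw [zero_pow hm.ne'] at hρ'
    exact (mul_ne_zero ha'0 (zpow_ne_zero α ht'0)) hρ'.symm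
  have hδ0 : δ ≠ 0 := by
    rintro rfl
    rw [zero_pow hp.ne'] at hδ'
    exact (mul_ne_zero hd'0 (zpow_ne_zero β ht'0)) hδ'.symm
  -- the exponents
  obtain ⟨i, α', hij, hαα', hα'⟩ := exists_split (ℓ := (ℓ : ℤ)) j α (by
    intro h
    apply hα
    push_cast
    exact h)
  obtain ⟨j', hj'⟩ : ∃ j', j = i + (j' + 1) := ⟨j - i - 1, by omega⟩
  have hm' : 0 < ℓ ^ (j' + 1) := pow_pos hp _
  obtain ⟨θ, hθ⟩ := IsAlgClosed.exists_pow_nat_eq t' hm'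
  have hθ0 : θ ≠ 0 := by
    rintro rfl
    rw [zero_pow hm'.ne'] at hθ
    exact ht'0 hθ.symm
  -- the constants `c`, `c₂`
  have hconst : ∀ (z : κ) (a : k) (N : ℕ), 0 < N → z ^ N = algebraMap k κ a →
      ∃ c : κ₀, algebraMap κ₀ κ c = z := by
    intro z a N hN hz
    obtain ⟨b, hb⟩ := IsAlgClosed.exists_pow_nat_eq (algebraMap k κ₀ a) hN
    rcases eq_or_ne b 0 with h0 | h0
    · rw [h0, zero_pow hN.ne'] at hb
      rw [IsScalarTower.algebraMap_apply k κ₀ κ, ← hb, map_zero] at hz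
      exact ⟨0, by rw [map_zero, pow_eq_zero_iff hN.ne' |>.1 hz]⟩
    · have h1 : (z / algebraMap κ₀ κ b) ^ N = 1 := by
        rw [div_pow, hz, ← map_pow, hb, ← IsScalarTower.algebraMap_apply, div_self]
        rw [IsScalarTower.algebraMap_apply k κ₀ κ, ← hb, map_pow]
        exact pow_ne_zero _ ((_root_.map_ne_zero _).2 h0)
      obtain ⟨ξ, hξ⟩ := Pool.Agent.Y430.GT.mem_const (κ₀ := κ₀) hN h1
      refine ⟨ξ * b, ?_⟩
      rw [map_mul, hξ, div_mul_cancel₀ _ ((_root_.map_ne_zero _).2 h0)]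
  obtain ⟨c, hc⟩ := hconst (ρ * (θ ^ α')⁻¹) a₀ (ℓ ^ j) hm (by
    rw [mul_pow, hρ', inv_pow, ← zpow_natCast (θ ^ α'), ← zpow_mul]
    have h1 : α' * ((ℓ ^ j : ℕ) : ℤ) = ((ℓ ^ (j' + 1) : ℕ) : ℤ) * α := by
      rw [hαα', hj']
      push_cast
      ring
    rw [h1, zpow_mul, zpow_natCast, hθ, mul_assoc, mul_inv_cancel₀ (zpow_ne_zero _ ht'0), mul_one])
  obtain ⟨c₂, hc₂⟩ := hconst (δ * (θ ^ (β * (ℓ : ℤ) ^ j'))⁻¹) d₀ ℓ hp (by
    rw [mul_pow, hδ', inv_pow, ← zpow_natCast (θ ^ (β * (ℓ : ℤ) ^ j')), ← zpow_mul]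
    have h1 : β * (ℓ : ℤ) ^ j' * (ℓ : ℤ) = ((ℓ ^ (j' + 1) : ℕ) : ℤ) * β := by
      push_cast
      ring
    rw [h1, zpow_mul, zpow_natCast, hθ, mul_assoc, mul_inv_cancel₀ (zpow_ne_zero _ ht'0), mul_one])
  have hρc : ρ = algebraMap κ₀ κ c * θ ^ α' := by
    rw [hc, inv_mul_cancel_right₀ (zpow_ne_zero _ hθ0)]
  have hδc : δ = algebraMap κ₀ κ c₂ * θ ^ (β * (ℓ : ℤ) ^ j') := by
    rw [hc₂, inv_mul_cancel_right₀ (zpow_ne_zero _ hθ0)]
  have hc0 : c ≠ 0 := by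
    rintro rfl
    rw [map_zero, zero_mul] at hρc
    exact hρ0 hρc
  have hc₂0 : c₂ ≠ 0 := by
    rintro rfl
    rw [map_zero, zero_mul] at hδc
    exact hδ0 hδc
  -- elements which fix `κ₀`
  have hgt' : ∀ g : κ ≃ₐ[K] κ, g t' = t' := fun g => g.commutes _
  have hρθ : ∀ g : κ ≃ₐ[K] κ, (∀ c, g (algebraMap κ₀ κ c) = algebraMap κ₀ κ c) →
      (g ρ = ρ ↔ g θ = θ) := by
    intro g hg
    constructor
    · intro h1
      have h2 : (g θ / θ) ^ (ℓ ^ (j' + 1)) = 1 := by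
        rw [div_pow, ← map_pow, hθ, hgt', div_self ht'0]
      have h3 : (g θ / θ) ^ α' = 1 := by
        rw [div_zpow, ← map_zpow₀]
        have h4 : θ ^ α' = (algebraMap κ₀ κ c)⁻¹ * ρ := by
          rw [hρc, inv_mul_cancel_left₀ ((_root_.map_ne_zero _).2 hc0)]
        rw [h4, map_mul, map_inv₀, hg, h1, div_self]
        exact mul_ne_zero (inv_ne_zero ((_root_.map_ne_zero _).2 hc0)) hρ0
      exact (div_eq_one_iff_eq hθ0).1 (zpow_root hα' h2 h3)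
    · intro h1
      rw [hρc, map_mul, map_zpow₀, hg, h1]
  -- the fields
  have hKL : ∀ a : K, algebraMap K κ a ∈ IntermediateField.adjoin κ₀ (Set.range t) := by
    intro a
    rw [← hLt]
    exact IntermediateField.subset_adjoin _ _ ⟨a, rfl⟩
  have hal : Algebra.IsAlgebraic (IntermediateField.adjoin κ₀ (Set.range t)) κ := by
    let φ : K →+* IntermediateField.adjoin κ₀ (Set.range t) := (algebraMap K κ).codRestrict
      (IntermediateField.adjoin κ₀ (Set.range t)).toSubfield.toSubring hKL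
    letI : Algebra K (IntermediateField.adjoin κ₀ (Set.range t)) := φ.toAlgebra
    haveI : IsScalarTower K (IntermediateField.adjoin κ₀ (Set.range t)) κ :=
      IsScalarTower.of_algebraMap_eq fun z => rfl
    exact Algebra.IsAlgebraic.tower_top (K := K) _
  have hdesc : Tow.Desc ℓ κ₀ κ := by
    have hn : 0 < n := by
      rcases Nat.eq_zero_or_pos n with h0 | h0
      · exfalso
        subst h0
        apply hP.1.not_isUnit
        rw [MvPolynomial.eq_C_of_isEmpty P]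
        refine (isUnit_iff_ne_zero.2 fun h1 => ?_).map MvPolynomial.C
        apply hP.1.ne_zero
        rw [MvPolynomial.eq_C_of_isEmpty P, h1, MvPolynomial.C_0]
      · exact h0
    refine Tow.desc_fin ℓ κ (Finset.univ.image t) κ₀ (t ⟨0, hn⟩) (ht.transcendental _)
      (Tow.alg_le (IntermediateField.adjoin κ₀ (Set.range t)) _ (fun z hz => ?_) hal)
    refine IntermediateField.adjoin.mono κ₀ _ _ ?_ hz
    intro y hy
    obtain ⟨i, rfl⟩ := hy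
    refine Set.mem_insert_of_mem _ ?_
    simp
  -- the branch points
  have hexp : Polynomial.expand K (ℓ ^ j) (g.map (algebraMap k K)) =
      (Polynomial.expand k (ℓ ^ j) g).map (algebraMap k K) := (Polynomial.map_expand).symm
  have hBκ : ∀ e ∈ B, ∃ e₀ : κ₀, algebraMap κ₀ κ e₀ = e := by
    intro e he
    have h1 := (hmemB e).1 he
    rw [hexp, Polynomial.aeval_map_algebraMap] at h1
    have h2 : IsAlgebraic κ₀ e := by
      refine ⟨(Polynomial.expand k (ℓ ^ j) g).map (algebraMap k κ₀),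
        (Polynomial.map_ne_zero_iff (algebraMap k κ₀).injective).2 hsep.ne_zero, ?_⟩
      rw [Polynomial.aeval_map_algebraMap, h1]
    exact minpoly.mem_range_of_degree_eq_one κ₀ e (IsAlgClosed.degree_eq_one_of_irreducible κ₀
      (minpoly.irreducible h2.isIntegral))
  have hB : ∀ ζ : κ, ζ ^ (ℓ ^ j) = 1 → ∀ e ∈ B, ζ * e ∈ B := by
    intro ζ hζ e he
    rw [hmemB, Polynomial.expand_aeval] at he ⊢
    rw [mul_pow, hζ, one_mul, he]
  have h0 : (0 : κ) ∉ B := by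
    intro h
    have hsK : (Polynomial.expand K (ℓ ^ j) (g.map (algebraMap k K))).Separable := by
      rw [hexp]
      exact hsep.map
    exact expand_zero hm2 _ hsK ((hmemB 0).1 h)
  obtain ⟨R₀, M₀, _, _, _, _, _, _, x₀, B₀, Y₀, ι, hPr, h31, h32, h33, V, hRot⟩ :=
    hdesc R M x B Y hC hBκ
  have hinf : ¬ FiniteDimensional R M := inf_of_rot hC fun e he => by
    obtain ⟨-, c, W, -, -, h3, h4, h5⟩ := hRot e he
    exact ⟨c, W, h3, h4, h5⟩
  have hκ : ∀ (σ : κ ≃ₐ[K] κ) (c : κ₀), ∃ c' : κ₀,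
      σ (algebraMap κ₀ κ c) = algebraMap κ₀ κ c' := fun σ c =>
    map_bot (k₁ := k) (κ₀ := κ₀) (σ : κ ≃+* κ) (fun a => by
      obtain ⟨b, hb⟩ := hkK a
      show σ (algebraMap k κ a) = algebraMap k κ a
      rw [← hb, AlgEquiv.commutes]) c
  have hrt : ∀ σ : κ ≃ₐ[K] κ, (σ ρ / ρ) ^ (ℓ ^ j) = 1 := by
    intro σ
    rw [div_pow, ← map_pow, hρ, σ.commutes, ← hρ, div_self (pow_ne_zero _ hρ0)]
  -- `M₀` is stable
  have halg₀ : Algebra.IsAlgebraic R₀ M₀ := by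
    have := hPr.cov₀.gal
    infer_instance
  have hst : ∀ (σ : κ ≃ₐ[K] κ) z₀, ∃ z₁, s σ (ι z₀) = ι z₁ := by
    intro σ
    obtain ⟨a, ha⟩ := Pool.Agent.Y430.GT.mem_const (κ₀ := κ₀) hm (hrt σ)
    refine stab_range hPr.cov₀.rat halg₀ h33 (s σ : M →+* M) (fun c => ?_) a ?_
    · obtain ⟨c', hc'⟩ := hκ σ c
      refine ⟨c', ?_⟩
      rw [hPr.const, hPr.const]
      change s σ _ = _
      rw [hs.const, hc']
    · rw [hPr.const, ha]
      have hvar : ι (algebraMap R₀ M₀ x₀) = algebraMap R M x := hPr.var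
      rw [hvar]
      exact hs.fixx σ
  -- elements which fix `κ₀` and `ρ`
  have hPT' : ∀ g : κ ≃ₐ[K] κ, (∀ c : κ₀, g (algebraMap κ₀ κ c) = algebraMap κ₀ κ c) →
      g ρ = ρ → ∀ z₀, s g (ι z₀) = ι z₀ := by
    intro g hg hgρ z₀
    refine ptR (j' + 1) _ rfl hPr hρ0 hθ0 ?_ hρθ hs hst (fun w hw0 hwL hno => ?_) g hg hgρ z₀
    · rw [hθ]
      exact IntermediateField.subset_adjoin _ _ ⟨D₁, rfl⟩
    · refine sepR (B₀ := B₀) (T₀ := {c, c₂}) hfg (j' + 1) (fun g => ∀ z₀, s g (ι z₀) = ι z₀) hθ0 t ht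
        hal C hgen hLt D (by rw [hθ, hD₁]) hlink (fun Q hQ e he => ?_) w hw0 hwL
        (fun w hw0 hno => ?_) hno
      · refine (hmul Q hQ e he).imp id (fun h1 => dvd_trans (pow_dvd_pow ℓ (by omega)) h1)
      · intro p _ hne jj hgood hjk hjT J₀ J₁ hJ₀ hJ₁ hK₀ hK₁ e1 e2 hw₀ hw₁
        by_contra h2
        have hn1 : ‖jj c‖ = 1 := hjT c (by simp) hc0
        have hn2 : ‖jj c₂‖ = 1 := hjT c₂ (by simp) hc₂0
        have hnorm : ∀ J : κ →+* PadicAlgCl p, (∀ c, J (algebraMap κ₀ κ c) = jj c) →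
            (∃ e ∈ (⊥ : IntermediateField ℚ_[p] (PadicAlgCl p)), ‖J θ‖ = ‖e‖) →
            ∀ (c : κ₀) (γ : ℤ), ‖jj c‖ = 1 →
            ∃ e ∈ (⊥ : IntermediateField ℚ_[p] (PadicAlgCl p)),
              ‖J (algebraMap κ₀ κ c * θ ^ γ)‖ = ‖e‖ := by
          rintro J hJ ⟨e, he, hJe⟩ c γ hc1
          refine ⟨e ^ γ, zpow_mem he γ, ?_⟩
          rw [map_mul, hJ, map_zpow₀, norm_mul, hc1, one_mul, norm_zpow, norm_zpow, hJe]
        obtain ⟨g, hg1, hg2, hg3⟩ := testR (p := p) hne hkK hPr hρ0 hδ0 j ⟨_, hρ⟩ ⟨_, hδ⟩ hs hst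
          (pow_pos hp (j' + 1 + 1)) w hw0 jj hgood
          (⊥ : IntermediateField ℚ_[p] (PadicAlgCl p)) hjk J₀ J₁ hJ₀ hJ₁ hK₀ hK₁
          (by rw [hδc]; exact hnorm J₀ hJ₀ e1 c₂ _ hn2)
          (by rw [hδc]; exact hnorm J₁ hJ₁ e2 c₂ _ hn2)
          (by rw [hρc]; exact hnorm J₀ hJ₀ e1 c _ hn1)
          (by rw [hρc]; exact hnorm J₁ hJ₁ e2 c _ hn1)
          hw₀ hw₁ h2
        exact hg2 (hno g hg1 hg3)
  -- the element `τ`
  obtain ⟨τ, hτ1, hτ2⟩ := exists_move hp t ht hal hLt D P hP (θ ^ (ℓ ^ j')) (by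
    rw [← pow_mul, ← pow_succ, hθ, hD₁])
  refine genCore hPr h31 h32 h33 hinf hB h0 hρ0 hrt hs hκ hPT' τ hτ1 (fun h1 => hτ2 ?_)
  rw [map_pow, (hρθ τ hτ1).1 h1]

end Pool.Agent.T6.H28.Rot
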