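import Pool.Agent.T6.H28.Rot.Test
import Pool.Agent.T6.H28.Rot.Grp
import Pool.Agent.T6.H28.PtJ

/-! # The geometric part of the section acts trivially on `M₀`: twists by rotations -/

set_option autoImplicit false
set_option linter.all false

open Polynomial FF

namespace Pool.Agent.T6.H28.Rot

open Pool.Agent.Y157.PS Pool.Agent.Y157.GT Pool.Agent.Y474.GT Pool.Agent.T6.H28.PE
  Pool.Agent.R925.L

/-- the stabiliser of an element whose power is in the base field has finite index -/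
theorem stab_finite {L κ : Type} [Field L] [Field κ] [Algebra L κ] (θ : κ) {m : ℕ} (hm : 0 < m)
    (hθ : ∃ c : L, θ ^ m = algebraMap L κ c) :
    (MulAction.stabilizer (κ ≃ₐ[L] κ) θ).FiniteIndex := by
  classical
  obtain ⟨c, hc⟩ := hθ
  have h1 : (MulAction.orbit (κ ≃ₐ[L] κ) θ).Finite := by
    have h2 : (X ^ m - Polynomial.C (algebraMap L κ c) : κ[X]) ≠ 0 :=
      X_pow_sub_C_ne_zero hm _
    refine Set.Finite.subset (Finset.finite_toSet
      (X ^ m - Polynomial.C (algebraMap L κ c) : κ[X]).roots.toFinset) ?_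
    rintro _ ⟨g, rfl⟩
    rw [Finset.mem_coe, Multiset.mem_toFinset, mem_roots h2, IsRoot.def, eval_sub, eval_pow,
      eval_X, eval_C]
    show (g θ) ^ m - _ = 0
    rw [← map_pow, hc, g.commutes, sub_self]
  haveI : Finite (MulAction.orbit (κ ≃ₐ[L] κ) θ) := h1
  haveI : Finite ((κ ≃ₐ[L] κ) ⧸ MulAction.stabilizer (κ ≃ₐ[L] κ) θ) :=
    Finite.of_equiv _ (MulAction.orbitEquivQuotientStabilizer (κ ≃ₐ[L] κ) θ)
  exact Subgroup.finiteIndex_of_finite_quotient

/-- the automorphisms over a finite normal extension -/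
theorem exists_normal {L κ : Type} [Field L] [Field κ] [Algebra L κ] [IsAlgClosure L κ]
    (E : IntermediateField L κ) [FiniteDimensional L E] :
    ∃ E' : IntermediateField L κ, FiniteDimensional L E' ∧ ∀ g ∈ E'.fixingSubgroup,
      ∀ x : κ ≃ₐ[L] κ, ∀ y ∈ E, (x * g * x⁻¹) y = y := by
  haveI : Algebra.IsAlgebraic L κ := IsAlgClosure.isAlgebraic
  haveI : Normal L κ := IsAlgClosure.normal L κ
  refine ⟨IntermediateField.normalClosure L E κ, inferInstance, fun g hg x y hy => ?_⟩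
  rw [IntermediateField.mem_fixingSubgroup_iff] at hg
  have h1 : x⁻¹ y ∈ IntermediateField.normalClosure L E κ := by
    have h2 : IntermediateField.map ((x⁻¹ : κ ≃ₐ[L] κ) : κ →ₐ[L] κ) E ≤
        IntermediateField.normalClosure L E κ := by
      rw [IntermediateField.normalClosure_def']
      exact le_iSup (fun f : κ →ₐ[L] κ => E.map f) ((x⁻¹ : κ ≃ₐ[L] κ) : κ →ₐ[L] κ)
    exact h2 ⟨y, hy, rfl⟩
  show x (g (x⁻¹ y)) = y
  rw [hg _ h1]
  exact x.apply_symm_apply y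

theorem ptR {ℓ : ℕ} [Fact ℓ.Prime] (r : ℕ)
    {K κ₀ κ R₀ R M₀ M : Type} [Field K] [CharZero K] [Field κ₀] [IsAlgClosed κ₀] [CharZero κ₀]
    [Field κ] [Algebra κ₀ κ] [Algebra K κ] [IsAlgClosure K κ]
    [Field R₀] [Field R] [Field M₀] [Field M] [Algebra κ₀ R₀]
    [Algebra R₀ M₀] [Algebra κ₀ M₀] [IsScalarTower κ₀ R₀ M₀] [Algebra κ R] [Algebra R M]
    [Algebra κ M] [IsScalarTower κ R M]
    {x₀ : R₀} {x : R} {B₀ : Finset κ₀} {B : Finset κ} {Y₀ : M₀} {Y : M} {ι : M₀ →+* M}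
    (L : IntermediateField κ₀ κ)
    (hL : L = IntermediateField.adjoin κ₀ (Set.range (algebraMap K κ)))
    (h : Pair ℓ κ₀ κ R₀ R M₀ M x₀ x B₀ B Y₀ Y ι) {ρ δ θ : κ} (hρ0 : ρ ≠ 0) (hθ0 : θ ≠ 0)
    (hθL : θ ^ (ℓ ^ r) ∈ L)
    (hρθ : ∀ g : κ ≃ₐ[K] κ, (∀ c, g (algebraMap κ₀ κ c) = algebraMap κ₀ κ c) →
      (g ρ = ρ ↔ g θ = θ))
    {s : (κ ≃ₐ[K] κ) →* RingAut M} (hs : Sec2 K κ R M x Y ρ δ s)
    (hst : ∀ σ z₀, ∃ z₁, s σ (ι z₀) = ι z₁)
    (hsep : ∀ w : κ, w ≠ 0 → w ^ (ℓ ^ (r + 1)) ∈ L →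
      (∀ g : κ ≃ₐ[K] κ, (∀ c, g (algebraMap κ₀ κ c) = algebraMap κ₀ κ c) →
        (∀ z₀, s g (ι z₀) = ι z₀) → g w = w) → ∃ n : ℕ, w * θ ^ n ∈ L)
    (g₀ : κ ≃ₐ[K] κ)
    (hg₀ : ∀ c, g₀ (algebraMap κ₀ κ c) = algebraMap κ₀ κ c) (hg₀ρ : g₀ ρ = ρ) (z₀ : M₀) :
    s g₀ (ι z₀) = ι z₀ := by
  classical
  by_contra hne
  have hℓ : 0 < ℓ := (Fact.out : ℓ.Prime).pos
  have hm : 0 < ℓ ^ r := pow_pos hℓ r
  haveI : IsAlgClosed κ := IsAlgClosure.isAlgClosed K
  haveI : Algebra.IsAlgebraic K κ := (inferInstance : IsAlgClosure K κ).isAlgebraic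
  -- the geometric group
  have hKL : ∀ a : K, ∃ b : L, algebraMap L κ b = algebraMap K κ a := by
    intro a
    refine ⟨⟨algebraMap K κ a, ?_⟩, rfl⟩
    rw [hL]
    exact IntermediateField.subset_adjoin _ _ ⟨a, rfl⟩
  haveI hal : Algebra.IsAlgebraic L κ := by
    let φ : K →+* L := (algebraMap K κ).codRestrict L.toSubfield.toSubring (fun a => by
      obtain ⟨b, hb⟩ := hKL a
      rw [← hb]
      exact b.2)
    letI : Algebra K L := φ.toAlgebra
    haveI : IsScalarTower K L κ := IsScalarTower.of_algebraMap_eq fun z => rfl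
    exact Algebra.IsAlgebraic.tower_top (K := K) L
  haveI : IsAlgClosure L κ := ⟨inferInstance, hal⟩
  let cv : (κ ≃ₐ[L] κ) →* (κ ≃ₐ[K] κ) := resG hKL
  have hcv : ∀ g z, cv g z = g z := fun g z => rfl
  have hfixL : ∀ (g : κ ≃ₐ[L] κ) {z : κ}, z ∈ L → g z = z := fun g z hz => g.commutes ⟨z, hz⟩
  have hfixc : ∀ (g : κ ≃ₐ[L] κ) (c : κ₀), g (algebraMap κ₀ κ c) = algebraMap κ₀ κ c :=
    fun g c => hfixL g (L.algebraMap_mem c)
  have hlf : ∀ g : κ ≃ₐ[K] κ, (∀ c, g (algebraMap κ₀ κ c) = algebraMap κ₀ κ c) →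
      ∃ g' : κ ≃ₐ[L] κ, cv g' = g := by
    intro g hg
    refine ⟨AlgEquiv.ofRingEquiv (f := (g : κ ≃+* κ)) (fun c => ?_), ?_⟩
    · have hc : (c : κ) ∈ IntermediateField.adjoin κ₀ (Set.range (algebraMap K κ)) := by
        rw [← hL]; exact c.2
      exact fix_comp ((g : κ ≃+* κ) : κ →+* κ) hg (fun a => g.commutes a) hc
    · ext z
      rfl
  -- the action on `M₀`
  set s' : (κ ≃ₐ[L] κ) →* RingAut M := s.comp cv with hs'
  -- the subgroup `H` which fixes `θ`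
  have hθr : ∀ g : κ ≃ₐ[L] κ, ∃ ζ : κ₀, ζ ^ (ℓ ^ r) = 1 ∧ g θ = algebraMap κ₀ κ ζ * θ := by
    intro g
    have h1 : (g θ / θ) ^ (ℓ ^ r) = 1 := by
      rw [div_pow, ← map_pow, hfixL g hθL, div_self (pow_ne_zero _ hθ0)]
    obtain ⟨ζ, hζ⟩ := Pool.Agent.Y430.GT.mem_const (κ₀ := κ₀) hm h1
    refine ⟨ζ, ?_, ?_⟩
    · apply (algebraMap κ₀ κ).injective
      rw [map_pow, hζ, h1, map_one]
    · rw [hζ, div_mul_cancel₀ _ hθ0]
  obtain ⟨H, hHdef⟩ : ∃ H : Subgroup (κ ≃ₐ[L] κ), H = MulAction.stabilizer _ θ := ⟨_, rfl⟩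
  have hH : ∀ g, g ∈ H ↔ g θ = θ := fun g => by rw [hHdef]; exact Iff.rfl
  have hHρ : ∀ g ∈ H, cv g ρ = ρ := fun g hg => (hρθ (cv g) (fun c => hfixc g c)).2 ((hH g).1 hg)
  haveI hHfin : H.FiniteIndex := by
    rw [hHdef]
    exact stab_finite θ hm ⟨⟨_, hθL⟩, rfl⟩
  haveI hHn : H.Normal := by
    refine ⟨fun g hg x => ?_⟩
    rw [hH] at hg ⊢
    obtain ⟨ζ, -, hζ⟩ := hθr x⁻¹
    have h1 : g (x⁻¹ θ) = x⁻¹ θ := by
      rw [hζ, map_mul, hfixc, hg]
    show x (g (x⁻¹ θ)) = θ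
    rw [h1]
    exact x.apply_symm_apply θ
  have hpw : ∀ (g : κ ≃ₐ[L] κ) (ζ : κ₀),
      g θ = algebraMap κ₀ κ ζ * θ → ∀ n : ℕ, (g ^ n) θ = algebraMap κ₀ κ (ζ ^ n) * θ := by
    intro g ζ hζ n
    induction n with
    | zero => rw [pow_zero, pow_zero, map_one, one_mul]; rfl
    | succ n ih =>
      rw [pow_succ]
      show (g ^ n) (g θ) = _
      rw [hζ, map_mul, hfixc, ih, pow_succ, map_mul]
      ring
  have hpowH : ∀ g, g ^ (ℓ ^ r) ∈ H := by
    intro g
    obtain ⟨ζ, h1, h2⟩ := hθr g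
    rw [hH, hpw g ζ h2, h1, map_one, one_mul]
  -- the quotient by `H` is cyclic
  have hcyc : ∃ g₁ : κ ≃ₐ[L] κ, ∀ g, ∃ i : ℤ, g₁ ^ i * g ∈ H := by
    choose Z hZ1 hZ2 using hθr
    have hZn : ∀ g, Z g ≠ 0 := by
      intro g hg
      have := hZ1 g
      rw [hg, zero_pow hm.ne'] at this
      exact zero_ne_one this
    have hZi : ∀ (ζ ζ' : κ₀), algebraMap κ₀ κ ζ * θ = algebraMap κ₀ κ ζ' * θ → ζ = ζ' := by
      intro ζ ζ' h1
      exact (algebraMap κ₀ κ).injective (mul_right_cancel₀ hθ0 h1)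
    let ψ : (κ ≃ₐ[L] κ) →* rootsOfUnity (ℓ ^ r) κ₀ :=
      { toFun := fun g => ⟨Units.mk0 (Z g) (hZn g), by
          rw [mem_rootsOfUnity]
          apply Units.ext
          rw [Units.val_pow_eq_pow_val, Units.val_mk0, hZ1, Units.val_one]⟩
        map_one' := by
          apply Subtype.ext
          apply Units.ext
          apply hZi
          rw [Units.val_mk0, ← hZ2]
          simp
        map_mul' := fun g g' => by
          apply Subtype.ext
          apply Units.ext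
          apply hZi
          rw [Units.val_mk0, ← hZ2]
          show g (g' θ) = algebraMap κ₀ κ (Z g * Z g') * θ
          rw [hZ2 g', map_mul, hfixc, hZ2 g, map_mul]
          ring }
    have hψ : ∀ g, ψ g = 1 → g ∈ H := by
      intro g hg
      rw [hH, hZ2 g]
      have h1 : Z g = 1 := congrArg (fun u : rootsOfUnity (ℓ ^ r) κ₀ => ((u : κ₀ˣ) : κ₀)) hg
      rw [h1, map_one, one_mul]
    haveI : NeZero (ℓ ^ r) := ⟨hm.ne'⟩
    haveI : IsCyclic (rootsOfUnity (ℓ ^ r) κ₀) := inferInstance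
    haveI : IsCyclic ψ.range := inferInstance
    obtain ⟨⟨_, g₁, rfl⟩, hgen⟩ := IsCyclic.exists_generator (α := ψ.range)
    refine ⟨g₁, fun g => ?_⟩
    obtain ⟨i, hi⟩ := Subgroup.mem_zpowers_iff.1 (hgen ⟨ψ g, g, rfl⟩)
    have hi' : ψ g₁ ^ i = ψ g := congrArg Subtype.val hi
    refine ⟨-i, hψ _ ?_⟩
    rw [map_mul, map_zpow, zpow_neg, hi', inv_mul_cancel]
  obtain ⟨g₁, hg₁⟩ := hcyc
  -- the action of `H`
  set sH : H →* RingAut M := s'.comp H.subtype with hsH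
  have hfix : ∀ (g : H) (r : R₀),
      sH g (ι (algebraMap R₀ M₀ r)) = ι (algebraMap R₀ M₀ r) := by
    intro g r
    have hr : r ∈ IntermediateField.adjoin κ₀ {x₀} := by
      rw [h.cov₀.rat.gen]; trivial
    induction hr using IntermediateField.adjoin_induction with
    | mem y hy =>
      rw [Set.mem_singleton_iff] at hy
      subst hy
      rw [h.var]
      show s (cv g) _ = _
      rw [hs.fixx, hHρ g g.2, div_self hρ0, map_one, one_mul]
    | algebraMap c =>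
      rw [← IsScalarTower.algebraMap_apply κ₀ R₀ M₀, h.const]
      show s (cv g) _ = _
      rw [hs.const, hcv, hfixc]
    | add a b _ _ ha hb => rw [map_add, map_add, map_add, ha, hb]
    | inv a _ ha => rw [map_inv₀, map_inv₀, map_inv₀, ha]
    | mul a b _ _ ha hb => rw [map_mul, map_mul, map_mul, ha, hb]
  obtain ⟨α, hα⟩ := Pool.Agent.Y978.GT.exists_act (R₀ := R₀) ι sH (fun g z => hst _ z) hfix
  -- a finite level
  obtain ⟨N₀, hz₀, hN₀⟩ := h.cov₀.pow z₀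
  have hfin := hN₀.fin
  have hgal := hN₀.gal
  obtain ⟨m₀, hm₀⟩ := hN₀.card
  have hpg : IsPGroup ℓ (N₀ ≃ₐ[R₀] N₀) := by
    apply IsPGroup.of_card (n := m₀)
    rw [IsGalois.card_aut_eq_finrank, hm₀]
  obtain ⟨φ, hφ⟩ : ∃ φ : H →* (N₀ ≃ₐ[R₀] N₀),
    φ = (AlgEquiv.restrictNormalHom N₀).comp α := ⟨_, rfl⟩
  have hφa : ∀ g (z : N₀), ((φ g z : N₀) : M₀) = α g z := fun g z => by
    rw [hφ]
    exact AlgEquiv.restrictNormalHom_apply N₀ (α g) z
  have hφ1 : ∀ g' : H, (∀ z₀, s (cv g') (ι z₀) = ι z₀) → φ g' = 1 := by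
    intro g' hg'
    ext z
    rw [hφa]
    apply ι.injective
    rw [hα]
    exact hg' _
  obtain ⟨V, hV, hVfin, hVp⟩ := Kum.core_quot hpg H hHfin hpowH φ
  -- continuity
  have hcont : ∃ E : IntermediateField L κ, FiniteDimensional L E ∧
        ∀ g : κ ≃ₐ[L] κ, (∀ y ∈ E, g y = y) → g ∈ V := by
    choose E hE hEs using hs.cont
    have hT : ∀ z, ∃ T : Finset κ, IntermediateField.adjoin K (T : Set κ) = E z := by
      intro z
      have := hE z
      exact IntermediateField.essFiniteType_iff.1 inferInstance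
    choose T hT' using hT
    let b := Module.finBasis R₀ N₀
    let U : Finset κ := insert θ (Finset.univ.biUnion fun i => T (ι (b i : M₀)))
    refine ⟨IntermediateField.adjoin _ (U : Set κ), ?_, ?_⟩
    · exact IntermediateField.finiteDimensional_adjoin fun y _ =>
        (Algebra.IsAlgebraic.isAlgebraic y).isIntegral
    · intro g hg
      have hgH : g ∈ H := by
        rw [hH]
        exact hg θ (IntermediateField.subset_adjoin _ _ (by simp [U]))
      rw [hV]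
      refine ⟨⟨g, hgH⟩, ?_, rfl⟩
      rw [SetLike.mem_coe, MonoidHom.mem_ker]
      have hb : ∀ i, φ ⟨g, hgH⟩ (b i) = b i := by
        intro i
        apply Subtype.ext
        rw [hφa]
        apply ι.injective
        rw [hα]
        refine hEs _ _ ?_
        rw [IntermediateField.mem_fixingSubgroup_iff]
        intro y hy
        rw [← hT'] at hy
        induction hy using IntermediateField.adjoin_induction with
        | mem y hy =>
          exact hg y (IntermediateField.subset_adjoin _ _ (by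
            rw [Finset.mem_coe, Finset.mem_insert, Finset.mem_biUnion]
            exact Or.inr ⟨i, Finset.mem_univ i, hy⟩))
        | algebraMap c => exact (cv g).commutes c
        | add a b _ _ ha hb => rw [map_add, ha, hb]
        | inv a _ ha => rw [map_inv₀, ha]
        | mul a b _ _ ha hb => rw [map_mul, ha, hb]
      have hlin : (φ ⟨g, hgH⟩).toLinearMap = LinearMap.id := b.ext fun i => hb i
      ext z
      exact congrArg Subtype.val (LinearMap.congr_fun hlin z)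
  obtain ⟨g', hg'⟩ := hlf g₀ hg₀
  have hg'H : g' ∈ H := by
    rw [hH, ← hcv, hg']
    exact (hρθ g₀ hg₀).1 hg₀ρ
  have hg'V : g' ∉ V := by
    intro hmem
    rw [hV] at hmem
    obtain ⟨g'', h1, h2⟩ := hmem
    rw [SetLike.mem_coe, MonoidHom.mem_ker] at h1
    apply hne
    have h3 := hφa g'' ⟨z₀, hz₀⟩
    rw [h1] at h3
    have h4 := hα g'' z₀
    have h5 : sH g'' = s g₀ := by
      rw [← hg', ← h2]
      rfl
    rw [h5] at h4
    rw [← h4]
    exact (congrArg ι h3).symm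
  haveI : Finite ((κ ≃ₐ[L] κ) ⧸ V.normalCore) := Subgroup.finite_quotient_of_finiteIndex
  obtain ⟨χ, hχ1, hχ2, h₁, hh₁, hχ3⟩ := Kum.exists_char3 ℓ r κ₀ hVp
    (QuotientGroup.mk' V.normalCore) H g₁ hg₁ hpowH ⟨g', hg'H, fun h1 => hg'V
      (Subgroup.normalCore_le V ((QuotientGroup.eq_one_iff g').1 h1))⟩
  have hχ4 : ∀ g ∈ V.normalCore, χ g = 1 := fun g hg => hχ1 g ((QuotientGroup.eq_one_iff g).2 hg)
  have hcontχ : ∃ E : IntermediateField L κ, FiniteDimensional L E ∧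
        ∀ g ∈ E.fixingSubgroup, χ g = 1 := by
    obtain ⟨E, hE, hE1⟩ := hcont
    obtain ⟨E', hE', hE2⟩ := exists_normal E
    refine ⟨E', hE', fun g hg => hχ4 g fun x => ?_⟩
    exact hE1 _ fun y hy => hE2 g hg x y hy
  obtain ⟨w, hw0, hw, hgw⟩ := kummerL (ℓ ^ (r + 1)) κ₀ κ L hal χ hχ2 hcontχ
  -- elements which act trivially on `M₀` fix `w`
  obtain ⟨n, hn⟩ := hsep w hw0 hw (by
    intro g hg1 hg2
    obtain ⟨g', rfl⟩ := hlf g hg1
    rw [hcv, hgw, hχ4 g' ?_, Units.val_one, map_one, one_mul]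
    intro q
    -- the conjugate acts trivially
    have htr : ∀ z₀, s (cv (q * g' * q⁻¹)) (ι z₀) = ι z₀ := by
      intro z₀
      rw [map_mul, map_mul, map_mul, map_mul]
      show s (cv q) (s (cv g') (s (cv q⁻¹) (ι z₀))) = ι z₀
      obtain ⟨z₁, hz₁⟩ := hst (cv q⁻¹) z₀
      rw [hz₁, hg2, ← hz₁]
      show (s (cv q) * s (cv q⁻¹)) (ι z₀) = ι z₀
      rw [← map_mul, ← map_mul, mul_inv_cancel, map_one, map_one]
      rfl
    have hH' : q * g' * q⁻¹ ∈ H := by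
      rw [hH]
      refine (hρθ (cv (q * g' * q⁻¹)) (fun c => hfixc _ c)).1 ?_
      have h1 := hs.fixx (cv (q * g' * q⁻¹))
      have h2 := htr (algebraMap R₀ M₀ x₀)
      rw [h.var, h1] at h2
      have hX0 : algebraMap R M x ≠ 0 := by
        intro h0
        have h3 : x = 0 := (_root_.map_eq_zero _).1 h0
        exact h.cov.rat.trans (by rw [h3]; exact isAlgebraic_zero)
      have h3 : algebraMap κ M (cv (q * g' * q⁻¹) ρ / ρ) = 1 :=
        mul_right_cancel₀ hX0 (h2.trans (one_mul _).symm)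
      have h4 : cv (q * g' * q⁻¹) ρ / ρ = 1 := by
        apply (algebraMap κ M).injective
        rw [h3, map_one]
      exact (div_eq_one_iff_eq hρ0).1 h4
    rw [hV]
    exact ⟨⟨_, hH'⟩, hφ1 _ htr, rfl⟩)
  have h5 : h₁ (w * θ ^ n) = w * θ ^ n := hfixL h₁ hn
  rw [map_mul, map_pow, (hH h₁).1 hh₁, hgw] at h5
  have h6 : algebraMap κ₀ κ (χ h₁ : κ₀) * w = w :=
    mul_right_cancel₀ (pow_ne_zero n hθ0) h5
  have h7 : algebraMap κ₀ κ (χ h₁ : κ₀) = 1 :=
    mul_right_cancel₀ hw0 (by rw [h6, one_mul])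
  apply hχ3
  apply Units.ext
  apply (algebraMap κ₀ κ).injective
  rw [h7, Units.val_one, map_one]

end Pool.Agent.T6.H28.Rot
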