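import Pool.Agent.T6.H28.JTest
import Pool.Agent.R925.L.Ram

/-! # The test, for two arbitrary `p`-adic embeddings: twists by rotations -/

set_option autoImplicit false
set_option linter.all false

open Polynomial FF

namespace Pool.Agent.T6.H28.Rot

open Pool.Agent.Y157.PS Pool.Agent.Y157.GT Pool.Agent.Y474.GT Pool.Agent.T6.H28.PE
  Pool.Agent.R925.L

variable {p : ℕ} [hp : Fact p.Prime]

/-- an element whose `ℓ ^ j`-th power is in `E` and which has the valuation of an element of `E` is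
fixed by the inertia group -/
theorem fixEm (E : IntermediateField ℚ_[p] (PadicAlgCl p)) [FiniteDimensional ℚ_[p] E]
    {ℓ : ℕ} [Fact ℓ.Prime] (hne : ℓ ≠ p) (i : ℕ) {y d e : PadicAlgCl p}
    (hy : y ^ (ℓ ^ i) = d) (hd : d ∈ E) (hd0 : d ≠ 0) (he : e ∈ E) (hye : ‖y‖ = ‖e‖)
    (τ : PadicAlgCl p ≃ₐ[E] PadicAlgCl p) (hτ : Ine (VC p) τ) : τ y = y := by
  have hℓ0 : ℓ ≠ 0 := (Fact.out : ℓ.Prime).ne_zero
  have hm0 : ℓ ^ i ≠ 0 := pow_ne_zero _ hℓ0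
  have hy0 : y ≠ 0 := by
    rintro rfl
    apply hd0
    rw [← hy, zero_pow hm0]
  have he0 : e ≠ 0 := by
    rintro rfl
    rw [norm_zero, norm_eq_zero] at hye
    exact hy0 hye
  have h2 : ‖y / e‖ = 1 := by
    rw [norm_div, hye, div_self (norm_ne_zero_iff.2 he0)]
  have hτd : τ d = d := τ.commutes ⟨d, hd⟩
  have hτe : τ e = e := τ.commutes ⟨e, he⟩
  have hn : ‖((ℓ ^ i : ℕ) : PadicAlgCl p)‖ = 1 := by
    rw [Nat.cast_pow, norm_pow, norm_l hne, one_pow]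
  have h3 : τ y / y = 1 := by
    refine Pool.Agent.Y748.PS.rou_eq_one (O := VC p) (m := ℓ ^ i) ((isU_VC _).2 hn) ?_ ?_
    · rw [div_pow, ← map_pow, hy, hτd, div_self hd0]
    · have h4 : τ y / y - 1 = (y / e)⁻¹ * (τ (y / e) - y / e) := by
        rw [map_div₀, hτe]
        field_simp
      rw [h4]
      refine Pool.Agent.Y748.PS.nu_mul ?_ (hτ.2 _ ?_)
      · rw [mem_VC, norm_inv, h2, inv_one]
      · rw [mem_VC, h2]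
  exact (div_eq_one_iff_eq hy0).1 h3

/-- the section over the field generated by `ρ` and `δ` -/
theorem sec_rd {K κ R M : Type} [Field K] [Field κ] [Field R] [Field M] [Algebra K κ]
    [Algebra κ R] [Algebra R M] [Algebra κ M] [Algebra.IsAlgebraic K κ] {ρ δ : κ} (hρ0 : ρ ≠ 0)
    (hδ0 : δ ≠ 0)
    {x : R} {Y : M} {s : (κ ≃ₐ[K] κ) →* RingAut M} (hs : Sec2 K κ R M x Y ρ δ s)
    (K₁ : IntermediateField K κ) (hρ : ρ ∈ K₁) (hδ : δ ∈ K₁) :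
    Sec K₁ κ R M x Y 1 (s.comp (resG (kk K₁))) := by
  haveI : Algebra.IsAlgebraic K₁ κ := Algebra.IsAlgebraic.tower_top (K := K) K₁
  refine ⟨fun σ c => ?_, fun σ => ?_, fun σ => ?_, fun z => ?_⟩
  · exact hs.const (resG (kk K₁) σ) c
  · have h1 := hs.fixx (resG (kk K₁) σ)
    have h2 : resG (kk K₁) σ ρ = ρ := by
      rw [resG_apply]
      exact σ.commutes ⟨ρ, hρ⟩
    rw [h2, div_self hρ0, map_one, one_mul] at h1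
    exact h1
  · have h1 := hs.fixy (resG (kk K₁) σ)
    have h2 : resG (kk K₁) σ δ = δ := by
      rw [resG_apply]
      exact σ.commutes ⟨δ, hδ⟩
    rw [h2, div_self hδ0] at h1
    show s (resG (kk K₁) σ) Y = algebraMap κ M (σ 1 / 1) * Y
    rw [h1, map_one σ, div_one]
  · obtain ⟨E, hE, hEz⟩ := hs.cont z
    obtain ⟨E', hE', h'⟩ := cont_res (kk K₁) E
    exact ⟨E', hE', fun σ hσ => hEz _ (h' σ hσ)⟩

theorem testR {ℓ : ℕ} [Fact ℓ.Prime] (hne : ℓ ≠ p)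
    {k K κ₀ κ R₀ R M₀ M : Type} [Field k] [CharZero k] [Field K] [CharZero K] [Field κ₀]
    [Algebra k κ₀] [IsAlgClosure k κ₀] [Field κ] [Algebra κ₀ κ] [Algebra k κ]
    [IsScalarTower k κ₀ κ] [Algebra K κ] [IsAlgClosure K κ]
    [Field R₀] [Field R] [Field M₀] [Field M] [Algebra κ₀ R₀]
    [Algebra R₀ M₀] [Algebra κ₀ M₀] [IsScalarTower κ₀ R₀ M₀] [Algebra κ R] [Algebra R M]
    [Algebra κ M] [IsScalarTower κ R M]
    (hkK : ∀ c : k, ∃ b : K, algebraMap K κ b = algebraMap k κ c)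
    {x₀ : R₀} {x : R} {B₀ : Finset κ₀} {B : Finset κ} {Y₀ : M₀} {Y : M} {ι : M₀ →+* M}
    (h : Pair ℓ κ₀ κ R₀ R M₀ M x₀ x B₀ B Y₀ Y ι) {ρ δ : κ} (hρ0 : ρ ≠ 0) (hδ0 : δ ≠ 0) (i : ℕ)
    (hρK : ∃ a : K, ρ ^ (ℓ ^ i) = algebraMap K κ a)
    (hδK : ∃ d : K, δ ^ ℓ = algebraMap K κ d)
    {s : (κ ≃ₐ[K] κ) →* RingAut M} (hs : Sec2 K κ R M x Y ρ δ s)
    (hst : ∀ σ z₀, ∃ z₁, s σ (ι z₀) = ι z₁)
    {N : ℕ} (hN : 0 < N) (w : κ) (hw0 : w ≠ 0)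
    (j : κ₀ →+* PadicAlgCl p) (hgood : Good (Aq j) B₀)
    (E : IntermediateField ℚ_[p] (PadicAlgCl p)) [FiniteDimensional ℚ_[p] E]
    (hkE : ∀ c : k, j (algebraMap k κ₀ c) ∈ E)
    (J₀ J₁ : κ →+* PadicAlgCl p)
    (hJ₀ : ∀ c, J₀ (algebraMap κ₀ κ c) = j c) (hJ₁ : ∀ c, J₁ (algebraMap κ₀ κ c) = j c)
    (hK₀ : ∀ c : K, J₀ (algebraMap K κ c) ∈ E) (hK₁ : ∀ c : K, J₁ (algebraMap K κ c) ∈ E)
    (h1 : ∃ e ∈ E, ‖J₀ δ‖ = ‖e‖) (h1' : ∃ e ∈ E, ‖J₁ δ‖ = ‖e‖)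
    (h0 : ∃ e ∈ E, ‖J₀ ρ‖ = ‖e‖) (h0' : ∃ e ∈ E, ‖J₁ ρ‖ = ‖e‖)
    (hw₀ : (J₀ w) ^ N ∈ E) (hw₁ : (J₁ w) ^ N ∈ E)
    (h2 : ¬ ∃ e ∈ E, ‖J₀ w / J₁ w‖ = ‖e‖) :
    ∃ g : κ ≃ₐ[K] κ, (∀ c, g (algebraMap κ₀ κ c) = algebraMap κ₀ κ c) ∧ g w ≠ w ∧
      ∀ z₀, s g (ι z₀) = ι z₀ := by
  classical
  haveI : Algebra.IsAlgebraic k κ₀ := (inferInstance : IsAlgClosure k κ₀).isAlgebraic
  haveI : IsAlgClosed κ₀ := IsAlgClosure.isAlgClosed k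
  haveI : IsAlgClosed κ := IsAlgClosure.isAlgClosed K
  haveI : Algebra.IsAlgebraic K κ := (inferInstance : IsAlgClosure K κ).isAlgebraic
  obtain ⟨d, hd⟩ := hδK
  obtain ⟨a, ha⟩ := hρK
  have hℓ0 : ℓ ≠ 0 := (Fact.out : ℓ.Prime).ne_zero
  have hJw : ∀ J : κ →+* PadicAlgCl p, J w ≠ 0 := fun J => (_root_.map_ne_zero J).2 hw0
  -- the element of the inertia group
  have hz : (J₀ w / J₁ w) ^ N = (J₀ w) ^ N / (J₁ w) ^ N := div_pow _ _ _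
  have h2' : ¬ ∃ e ∈ E, ‖(J₀ w) ^ N / (J₁ w) ^ N‖ = ‖e‖ ^ N := by
    rintro ⟨e, he, h3⟩
    apply h2
    refine ⟨e, he, ?_⟩
    rw [← div_pow, norm_pow] at h3
    exact (pow_left_inj₀ (norm_nonneg _) (norm_nonneg _) hN.ne').1 h3
  obtain ⟨τ, hτ, hτz⟩ := move E hN (div_mem hw₀ hw₁)
    (div_ne_zero (pow_ne_zero _ (hJw J₀)) (pow_ne_zero _ (hJw J₁))) hz h2'
  have hfix : ∀ (i : ℕ) (z : κ) (c : K), z ≠ 0 → z ^ (ℓ ^ i) = algebraMap K κ c →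
      ∀ J : κ →+* PadicAlgCl p, (∀ c : K, J (algebraMap K κ c) ∈ E) →
      (∃ e ∈ E, ‖J z‖ = ‖e‖) → τ (J z) = J z := by
    rintro i z c hz0 hzc J hJ ⟨e, he, hne'⟩
    refine fixEm (ℓ := ℓ) E hne i (d := J (algebraMap K κ c)) (e := e) ?_ (hJ c) ?_ he hne' τ hτ
    · rw [← map_pow, hzc]
    · rw [← hzc, map_pow]
      exact pow_ne_zero _ ((_root_.map_ne_zero J).2 hz0)
  have hτδ₀ : τ (J₀ δ) = J₀ δ := hfix 1 δ d hδ0 (by rw [pow_one, hd]) J₀ hK₀ h1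
  have hτδ₁ : τ (J₁ δ) = J₁ δ := hfix 1 δ d hδ0 (by rw [pow_one, hd]) J₁ hK₁ h1'
  have hτρ₀ : τ (J₀ ρ) = J₀ ρ := hfix i ρ a hρ0 ha J₀ hK₀ h0
  have hτρ₁ : τ (J₁ ρ) = J₁ ρ := hfix i ρ a hρ0 ha J₁ hK₁ h0'
  -- the field generated by `ρ` and `δ`
  set K₁ : IntermediateField K κ := IntermediateField.adjoin K {ρ, δ} with hK₁'
  have hρK₁ : ρ ∈ K₁ := IntermediateField.subset_adjoin _ _ (by simp)
  have hδK₁ : δ ∈ K₁ := IntermediateField.subset_adjoin _ _ (by simp)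
  have hgen₁ : ∀ S : Subfield κ, (∀ c : K, algebraMap K κ c ∈ S) → ρ ∈ S → δ ∈ S →
      ∀ c : K₁, algebraMap K₁ κ c ∈ S := by
    intro S hS1 hS2 hS3 c
    have h3 : K₁ ≤ S.toIntermediateField hS1 := by
      rw [hK₁', IntermediateField.adjoin_le_iff]
      rintro y (rfl | hy)
      · exact hS2
      · rw [Set.mem_singleton_iff] at hy
        subst hy
        exact hS3
    exact h3 c.2
  set E₁ : IntermediateField ℚ_[p] (PadicAlgCl p) :=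
    E ⊔ IntermediateField.adjoin ℚ_[p] {J₀ δ, J₁ δ, J₀ ρ, J₁ ρ} with hE₁
  haveI : FiniteDimensional ℚ_[p]
      (IntermediateField.adjoin ℚ_[p] {J₀ δ, J₁ δ, J₀ ρ, J₁ ρ}) :=
    IntermediateField.finiteDimensional_adjoin fun z _ =>
      (Algebra.IsAlgebraic.isAlgebraic z).isIntegral
  haveI : FiniteDimensional ℚ_[p] E₁ := IntermediateField.finiteDimensional_sup _ _
  have hEE : ∀ z ∈ E, z ∈ E₁ := fun z hz => (le_sup_left : E ≤ E₁) hz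
  have hJK : ∀ (J : κ →+* PadicAlgCl p), (∀ c : K, J (algebraMap K κ c) ∈ E) → J ρ ∈ E₁ →
      J δ ∈ E₁ → ∀ c : K₁, J (algebraMap K₁ κ c) ∈ E₁ := by
    intro J hJ hJρ hJδ c
    exact hgen₁ (E₁.toSubfield.comap J) (fun c => hEE _ (hJ c)) hJρ hJδ c
  have hτK : ∀ (J : κ →+* PadicAlgCl p), (∀ c : K, J (algebraMap K κ c) ∈ E) → τ (J ρ) = J ρ →
      τ (J δ) = J δ →
      ∀ c : K₁, τ (J (algebraMap K₁ κ c)) = J (algebraMap K₁ κ c) := by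
    intro J hJ hJρ hJδ c
    exact hgen₁ ((((τ : PadicAlgCl p ≃+* PadicAlgCl p) : PadicAlgCl p →+* PadicAlgCl p).comp
      J).eqLocusField J) (fun c => τ.commutes ⟨_, hJ c⟩) hJρ hJδ c
  have hin : ∀ z ∈ ({J₀ δ, J₁ δ, J₀ ρ, J₁ ρ} : Set (PadicAlgCl p)), z ∈ E₁ := fun z hz =>
    (le_sup_right : _ ≤ E₁) (IntermediateField.subset_adjoin _ _ hz)
  have hδ₀E : J₀ δ ∈ E₁ := hin _ (by simp)
  have hδ₁E : J₁ δ ∈ E₁ := hin _ (by simp)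
  have hρ₀E : J₀ ρ ∈ E₁ := hin _ (by simp)
  have hρ₁E : J₁ ρ ∈ E₁ := hin _ (by simp)
  haveI : Algebra.IsAlgebraic K₁ κ := Algebra.IsAlgebraic.tower_top (K := K) K₁
  haveI : IsAlgClosure K₁ κ := ⟨inferInstance, inferInstance⟩
  haveI : CharZero K₁ := charZero_of_injective_algebraMap (algebraMap K K₁).injective
  have hsL := sec_rd hρ0 hδ0 hs K₁ hρK₁ hδK₁
  obtain ⟨σ₀, σ₁, g0, g1, g2, g3⟩ := coreE hne (k := k) (K₁ := K₁) h (fun c => by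
      obtain ⟨b, hb⟩ := hkK c
      exact ⟨algebraMap K K₁ b, hb⟩) hsL (fun σ z₀ => hst _ z₀) j J₀ J₁ hJ₀ hJ₁ E₁
    (fun c => hEE _ (hkE c)) (hJK J₀ hK₀ hρ₀E hδ₀E) (hJK J₁ hK₁ hρ₁E hδ₁E) hgood
    E τ hτ (hτK J₀ hK₀ hτρ₀ hτδ₀) (hτK J₁ hK₁ hτρ₁ hτδ₁)
  refine ⟨resG (kk K₁) (σ₀ * σ₁), fun c => g2 c, ?_, g3⟩
  -- the action on `w`
  have hττ : ∀ z, τ (τ⁻¹ z) = z := fun z => by
    show (τ * τ⁻¹) z = z
    rw [mul_inv_cancel]; rfl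
  have hinvE : ∀ z ∈ E, τ⁻¹ z = z := fun z hz => (τ⁻¹).commutes ⟨z, hz⟩
  have hξ : (σ₁ w / w) ^ N = 1 := by
    apply J₁.injective
    rw [map_pow, map_div₀, g1, map_one, div_pow, ← map_pow, hinvE _ hw₁,
      div_self (pow_ne_zero _ (hJw J₁))]
  obtain ⟨ξ, hξ'⟩ := Pool.Agent.Y430.GT.mem_const (κ₀ := κ₀) hN hξ
  have hσ₁w : σ₁ w = algebraMap κ₀ κ ξ * w := by rw [hξ', div_mul_cancel₀ _ hw0]
  have hjξ : j ξ = τ⁻¹ (J₁ w) / J₁ w := by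
    rw [← hJ₁, hξ', map_div₀, g1]
  show σ₀ (σ₁ w) ≠ w
  intro hcon
  apply hτz
  have h5 : J₀ w = τ (j ξ) * τ (J₀ w) := by
    conv_lhs => rw [← hcon]
    rw [hσ₁w, g0, map_mul, map_mul, hJ₀]
  rw [hjξ, map_div₀, hττ] at h5
  have h6 : τ (J₁ w) ≠ 0 := (_root_.map_ne_zero τ).2 (hJw J₁)
  rw [map_div₀, div_eq_div_iff h6 (hJw J₁)]
  rw [div_mul_eq_mul_div, eq_div_iff h6] at h5
  rw [mul_comm (τ (J₀ w)), ← h5]

end Pool.Agent.T6.H28.Rot
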